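import Mathlib
import Pool.Agent.Lib.MP_eacabd_co.Wide8.Basis
import Pool.Agent.Lib.MP_eacabd_co.Gold8.Ident
import Pool.Agent.Lib.MP_eacabd_co.Gold8.Switch8

/-!
Switching of the Gold functions, all exponents `i` at once: statements of the modules.
-/

set_option autoImplicit false

namespace Pool.Agent.Lib.MP_eacabd_co.Uni8

open Finset Pool.Agent.Lib.MP_eacabd_co Pool.Agent.Lib.MP_eacabd_co.Gold8
open Pool.Agent.Lib.MP_eacabd_co.Wide8

/-- positions `j`, values `e j`, doubling is the shift by `s`; sums of at most five values with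
distinct positions are unique -/
structure Dbl (n : ℕ) (G : Type) [AddCommGroup G] (e : ZMod n → G) (s : ZMod n) : Prop where
  dbl : ∀ j, e (j + s) = e j + e j
  uniq : ∀ A B : List (ZMod n), A.Nodup → B.Nodup → A.length ≤ 5 → B.length ≤ 5 →
    (A.map e).sum = (B.map e).sum → A.Perm B

/-- (DBL) the powers of two modulo `2 ^ n - 1` -/
def StDbl : Prop := ∀ (i n : ℕ) [NeZero n], 7 ≤ n → Nat.Coprime i n →
    Dbl n (R n) (fun j => pw ((i : ZMod n) * j)) (sh n i)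

/-- the excluded positions -/
noncomputable def Bad {n : ℕ} (s c d : ZMod n) : Finset (ZMod n) :=
  (Icc (-6 : ℤ) 3 ×ˢ Icc (-2 : ℤ) 2).image (fun p => c + (p.1 : ZMod n) + (p.2 : ZMod n) * s) ∪
    (Icc (-6 : ℤ) 3 ×ˢ Icc (-2 : ℤ) 2).image (fun p => d + (p.1 : ZMod n) + (p.2 : ZMod n) * s)

/-- (CLS) classification of the solutions of the equation of exponents -/
def StCls : Prop := ∀ (n : ℕ) [NeZero n], 7 ≤ n → ∀ (G : Type) [AddCommGroup G] (e : ZMod n → G)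
    (s : ZMod n), Dbl n G e s → IsUnit s → s ≠ 1 → s ≠ -1 → ∀ c d l : ZMod n, c ≠ d → d ≠ c + 1 →
    c ≠ d + 1 → l ∉ Bad s c d → ∀ a b t m : ZMod n, a ≠ b → t ≠ m →
    e d + (e t + e (t + 1)) + (e m + e (m + 1)) = e (c + 1) + (e l + e (l + 1)) + (e a + e b) →
    ((a = c ∧ b = d ∨ a = d ∧ b = c) ∧ (t = c ∧ m = l ∨ t = l ∧ m = c)) ∨
    ((a = c + 2 ∧ b = d ∨ a = d ∧ b = c + 2) ∧ (t = c + 1 ∧ m = l ∨ t = l ∧ m = c + 1)) ∨
    d = c + s ∨ d = c + s + 2 ∨ s = 2 ∨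
    (s = -2 ∧ (d = c + 2 ∨ d = c + 3) ∧ ∃ x y, (a = x ∧ b = y ∨ a = y ∧ b = x) ∧ x = l + 1 ∧
      (y = d + 1 ∨ y = d - 1 ∨ y = d - 2))

/-- (CLU) the shorter equation -/
def StClu : Prop := ∀ (n : ℕ) [NeZero n], 7 ≤ n → ∀ (G : Type) [AddCommGroup G] (e : ZMod n → G)
    (s : ZMod n), Dbl n G e s → IsUnit s → s ≠ 1 → s ≠ -1 → ∀ c d l : ZMod n, c ≠ d → d ≠ c + 1 →
    c ≠ d + 1 → l ∉ Bad s c d → ∀ a b t : ZMod n, a ≠ b →
    e d + (e t + e (t + 1)) = e (c + 1) + (e l + e (l + 1)) + (e a + e b) →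
    d = c + 2 * s + 1 ∨ s = 2

/-- a bilinear form (coefficients `g c d`) vanishes on the planes with value `u` -/
def VanZ {n : ℕ} [NeZero n] {F : Type} [Field F] (i : ℕ) (u : F) (g : ZMod n → ZMod n → F) : Prop :=
  ∀ A B : F, A ^ (2 ^ i) * B + A * B ^ (2 ^ i) = u →
    ∑ c : ZMod n, ∑ d : ZMod n, g c d * (fr i c A * fr i d B) = 0

/-- (KILLC) one coefficient vanishes -/
def StKillC : Prop := ∀ (i n : ℕ) [NeZero n], 7 ≤ n → Nat.Coprime i n → ∀ (F : Type) [Field F]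
    [Fintype F] [DecidableEq F] [CharP F 2], Fintype.card F = 2 ^ n → ∀ u : F, u ≠ 0 →
    ∀ g : ZMod n → ZMod n → F, (∀ c d, g c d = g d c) → (∀ c, g c c = 0) → VanZ i u g →
    sh n i ≠ 1 → sh n i ≠ -1 → sh n i ≠ 2 →
    ∀ c d l : ZMod n, c ≠ d → d ≠ c + 1 → c ≠ d + 1 → (d - c).val ≤ (l - c).val →
    l ∉ Bad (sh n i) c d → d ≠ c + sh n i → d ≠ c + sh n i + 2 → d ≠ c + 2 * sh n i + 1 →
    (sh n i = -2 → (d = c + 2 ∨ d = c + 3) →
      g (l + 1) (d + 1) = 0 ∧ g (l + 1) (d - 1) = 0 ∧ g (l + 1) (d - 2) = 0) →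
    g c d = 0

/-- (GZ) all the coefficients of pairs which are not adjacent vanish -/
def StGZ : Prop := ∀ (i n : ℕ) [NeZero n], 303 ≤ n → 2 ≤ i → i + 2 ≤ n → Nat.Coprime i n →
    ∀ (F : Type) [Field F] [Fintype F] [DecidableEq F] [CharP F 2], Fintype.card F = 2 ^ n →
    ∀ u : F, u ≠ 0 → ∀ g : ZMod n → ZMod n → F, (∀ c d, g c d = g d c) → (∀ c, g c c = 0) →
    VanZ i u g → ∀ c d : ZMod n, c ≠ d → d ≠ c + 1 → c ≠ d + 1 → g c d = 0

/-- (MAIN) the replacement of `Gold8.main_lemma` -/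
def StMain : Prop := ∀ (i n : ℕ), 303 ≤ n → 2 ≤ i → i + 2 ≤ n → Nat.Coprime i n →
    ∀ (F : Type) [Field F] [Fintype F] [DecidableEq F] [CharP F 2], Fintype.card F = 2 ^ n →
    ∀ u : F, u ≠ 0 → ∀ C : ℕ → ℕ → F, Vanish n i u C → ∀ j k : ℕ, j < k → k < n → k ≠ j + 1 →
    ¬ (j = 0 ∧ k + 1 = n) → C j k = 0

/-- (SWITCH) the replacement of `Gold8.switch_gold` -/
def StSwitch : Prop := ∀ (i n : ℕ), 303 ≤ n → 2 ≤ i → i + 2 ≤ n → Nat.Coprime i n →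
    ∀ (F : Type) [Field F] [Fintype F], Fintype.card F = 2 ^ n → ∀ (u : F) (G0 s G : F → F),
    EA G0 (fun x => x ^ (2 ^ i + 1)) → (∀ x, s x = 0 ∨ s x = 1) →
    (∀ x, G x = G0 x + u * s x) → IsAPN G → EA G (fun x => x ^ (2 ^ i + 1))

end Pool.Agent.Lib.MP_eacabd_co.Uni8
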