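import Mathlib
import Pool.Agent.Lib.MP_eacabd_co.Uni8.StmtsU

/-!
Uniform switching theorem: normal forms of the sums of powers of two.
-/

set_option autoImplicit false

namespace Pool.Agent.Lib.MP_eacabd_co.Uni8

variable {n : ℕ} {G : Type} [AddCommGroup G] {e : ZMod n → G} {s : ZMod n}

/-- value of a list -/
def vl (e : ZMod n → G) (A : List (ZMod n)) : G := (A.map e).sum

theorem vl_nil (e : ZMod n → G) : vl e [] = 0 := rfl

theorem vl_cons (e : ZMod n → G) (a : ZMod n) (A : List (ZMod n)) :
    vl e (a :: A) = e a + vl e A := by
  simp [vl]

theorem Dbl.mem (h : Dbl n G e s) {A B : List (ZMod n)} (hA : A.Nodup) (hB : B.Nodup)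
    (hA5 : A.length ≤ 5) (hB5 : B.length ≤ 5) (hs : vl e A = vl e B) :
    A.length = B.length ∧ (∀ x ∈ A, x ∈ B) ∧ (∀ x ∈ B, x ∈ A) :=
  ⟨(h.uniq A B hA hB hA5 hB5 hs).length_eq, fun _ hx => (h.uniq A B hA hB hA5 hB5 hs).subset hx,
    fun _ hx => (h.uniq A B hA hB hA5 hB5 hs).symm.subset hx⟩

/-- the forms of small left hand sides -/
def Df (s d x : ZMod n) : Prop := x = d - 2 ∨ x = d - 1 ∨ x = d + 1 ∨ x = d + 2 ∨ x = d + s ∨
  x = d + s - 1 ∨ x = d + s + 1 ∨ x = d - s - 1 ∨ x = d - s + 1 ∨ x = d + 2 * s

/-- the small left hand sides -/
def SmallL (e : ZMod n → G) (s d : ZMod n) (v : G) : Prop :=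
  ∃ A : List (ZMod n), A.Nodup ∧ A.length ≤ 3 ∧ v = vl e A ∧ ∀ x ∈ A, Df s d x

theorem small3 {d x y z : ZMod n} {v : G} (h1 : x ≠ y) (h2 : x ≠ z) (h3 : y ≠ z)
    (hv : v = e x + e y + e z) (hx : Df s d x) (hy : Df s d y) (hz : Df s d z) :
    SmallL e s d v := by
  refine ⟨[x, y, z], ?_, ?_, ?_, ?_⟩
  · simp [h1, h2, h3]
  · simp
  · rw [hv]
    simp only [vl_cons, vl_nil, add_zero, add_assoc]
  · intro w hw
    simp only [List.mem_cons, List.not_mem_nil, or_false] at hw
    rcases hw with rfl | rfl | rfl
    · exact hx
    · exact hy
    · exact hz

theorem small2 {d x y : ZMod n} {v : G} (h1 : x ≠ y)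
    (hv : v = e x + e y) (hx : Df s d x) (hy : Df s d y) :
    SmallL e s d v := by
  refine ⟨[x, y], ?_, ?_, ?_, ?_⟩
  · simp [h1]
  · simp
  · rw [hv]
    simp only [vl_cons, vl_nil, add_zero]
  · intro w hw
    simp only [List.mem_cons, List.not_mem_nil, or_false] at hw
    rcases hw with rfl | rfl
    · exact hx
    · exact hy

theorem small1 {d x : ZMod n} {v : G} (hv : v = e x) (hx : Df s d x) :
    SmallL e s d v := by
  refine ⟨[x], ?_, ?_, ?_, ?_⟩
  · simp
  · simp
  · rw [hv]
    simp only [vl_cons, vl_nil, add_zero]
  · intro w hw
    simp only [List.mem_cons, List.not_mem_nil, or_false] at hw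
    rw [hw]
    exact hx

/-- the four large shapes and the small ones -/
def ShapeL (e : ZMod n → G) (s d t m : ZMod n) : Prop :=
    [d, t, t + 1, m, m + 1].Nodup ∨
    (∃ y, [d + s, d + 1, y, y + 1].Nodup ∧
      e d + (e t + e (t + 1)) + (e m + e (m + 1)) = vl e [d + s, d + 1, y, y + 1]) ∨
    (∃ y, [d + s, d - 1, y, y + 1].Nodup ∧
      e d + (e t + e (t + 1)) + (e m + e (m + 1)) = vl e [d + s, d - 1, y, y + 1]) ∨
    (∃ q, [d, q - 1, q + s, q + 1].Nodup ∧
      e d + (e t + e (t + 1)) + (e m + e (m + 1)) = vl e [d, q - 1, q + s, q + 1]) ∨
    SmallL e s d (e d + (e t + e (t + 1)) + (e m + e (m + 1)))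

theorem ShapeL.symm {d t m : ZMod n} (h : ShapeL e s d t m) : ShapeL e s d m t := by
  have e1 : e d + (e m + e (m + 1)) + (e t + e (t + 1))
      = e d + (e t + e (t + 1)) + (e m + e (m + 1)) := by abel
  unfold ShapeL at *
  rw [e1]
  rcases h with h | h | h | h | h
  · left
    simp only [List.nodup_cons, List.mem_cons, List.not_mem_nil, or_false, not_false_eq_true,
      List.nodup_nil, and_true, not_or] at h ⊢
    grind
  · exact Or.inr (Or.inl h)
  · exact Or.inr (Or.inr (Or.inl h))
  · exact Or.inr (Or.inr (Or.inr (Or.inl h)))
  · exact Or.inr (Or.inr (Or.inr (Or.inr h)))

/-- consecutive blocks -/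
theorem shape_over (h : Dbl n G e s) (s0 : s ≠ 0) (s1 : s ≠ 1) (s2 : s ≠ -1) (h1 : (1 : ZMod n) ≠ 0)
    (h2 : (2 : ZMod n) ≠ 0) (h5 : (5 : ZMod n) ≠ 0) (d t : ZMod n) : ShapeL e s d t (t + 1) := by
  have e1 : e d + (e t + e (t + 1)) + (e (t + 1) + e (t + 1 + 1))
      = e d + e t + e (t + 1 + s) + e (t + 2) := by
    have : t + 1 + 1 = t + 2 := by ring
    rw [this, h.dbl]
    abel
  unfold ShapeL
  rw [e1]
  by_cases c1 : d = t
  · subst c1
    right; right; right; right
    have e2 : e d + e d + e (d + 1 + s) + e (d + 2) = e (d + s) + e (d + 1 + s) + e (d + 2) := by
      rw [← h.dbl]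
    rw [e2]
    by_cases c2 : s = 2
    · have e3 : e (d + s) + e (d + 1 + s) + e (d + 2) = e (d + 2 * s) + e (d + s + 1) := by
        have a1 : d + 2 * s = d + s + s := by ring
        have a2 : d + s + 1 = d + 1 + s := by ring
        have a3 : d + 2 = d + s := by rw [c2]
        rw [a1, a2, a3, h.dbl (d + s)]
        abel
      refine small2 ?_ e3 ?_ ?_
      · grind
      · unfold Df; grind
      · unfold Df; grind
    · refine small3 ?_ ?_ ?_ rfl ?_ ?_ ?_ <;> (first
                    | (unfold Df; grind)
                    | grind
                    | (intro h0; exact h1 (by linear_combination h0))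
                    | (intro h0; exact h1 (by linear_combination -h0))
                    | (intro h0; exact h2 (by linear_combination h0))
                    | (intro h0; exact h2 (by linear_combination -h0)))
  · by_cases c2 : d = t + 2
    · obtain rfl : t = d - 2 := by rw [c2]; ring
      right; right; right; right
      have e2 : e d + e (d - 2) + e (d - 2 + 1 + s) + e (d - 2 + 2)
          = e (d + s) + e (d - 2) + e (d + s - 1) := by
        have a1 : d - 2 + 2 = d := by ring
        have a2 : d - 2 + 1 + s = d + s - 1 := by ring
        rw [a1, a2, h.dbl d]
        abel
      rw [e2]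
      by_cases c3 : s = -2
      · have e3 : e (d + s) + e (d - 2) + e (d + s - 1) = e (d + 2 * s) + e (d + s - 1) := by
          have a1 : d + 2 * s = d + s + s := by ring
          have a3 : d - 2 = d + s := by rw [c3]; ring
          rw [a1, a3, h.dbl (d + s)]
        refine small2 ?_ e3 ?_ ?_ <;> (first
                    | (unfold Df; grind)
                    | grind
                    | (intro h0; exact h1 (by linear_combination h0))
                    | (intro h0; exact h1 (by linear_combination -h0))
                    | (intro h0; exact h2 (by linear_combination h0))
                    | (intro h0; exact h2 (by linear_combination -h0)))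
      · refine small3 ?_ ?_ ?_ rfl ?_ ?_ ?_ <;> (first
                    | (unfold Df; grind)
                    | grind
                    | (intro h0; exact h1 (by linear_combination h0))
                    | (intro h0; exact h1 (by linear_combination -h0))
                    | (intro h0; exact h2 (by linear_combination h0))
                    | (intro h0; exact h2 (by linear_combination -h0)))
    · by_cases c3 : d = t + 1 + s
      · obtain rfl : t = d - s - 1 := by rw [c3]; ring
        right; right; right; right
        have e2 : e d + e (d - s - 1) + e (d - s - 1 + 1 + s) + e (d - s - 1 + 2)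
            = e (d + s) + e (d - s - 1) + e (d - s + 1) := by
          have a1 : d - s - 1 + 1 + s = d := by ring
          have a2 : d - s - 1 + 2 = d - s + 1 := by ring
          rw [a1, a2, h.dbl d]
          abel
        rw [e2]
        by_cases c4 : 2 * s = 1
        · have e3 : e (d + s) + e (d - s - 1) + e (d - s + 1) = e (d + 2 * s) + e (d - s - 1) := by
            have a1 : d + 2 * s = d + s + s := by ring
            have a3 : d - s + 1 = d + s := by linear_combination -c4
            rw [a1, a3, h.dbl (d + s)]
            abel
          refine small2 ?_ e3 ?_ ?_ <;> (first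
                    | (unfold Df; grind)
                    | grind
                    | (intro h0; exact h1 (by linear_combination h0))
                    | (intro h0; exact h1 (by linear_combination -h0))
                    | (intro h0; exact h2 (by linear_combination h0))
                    | (intro h0; exact h2 (by linear_combination -h0)))
        · by_cases c5 : 2 * s = -1
          · have e3 : e (d + s) + e (d - s - 1) + e (d - s + 1)
                = e (d + 2 * s) + e (d - s + 1) := by
              have a1 : d + 2 * s = d + s + s := by ring
              have a3 : d - s - 1 = d + s := by linear_combination -c5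
              rw [a1, a3, h.dbl (d + s)]
            refine small2 ?_ e3 ?_ ?_ <;> (first
                    | (unfold Df; grind)
                    | grind
                    | (intro h0; exact h1 (by linear_combination h0))
                    | (intro h0; exact h1 (by linear_combination -h0))
                    | (intro h0; exact h2 (by linear_combination h0))
                    | (intro h0; exact h2 (by linear_combination -h0)))
          · refine small3 ?_ ?_ ?_ rfl ?_ ?_ ?_ <;> (first
                    | (unfold Df; grind)
                    | grind
                    | (intro h0; exact h1 (by linear_combination h0))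
                    | (intro h0; exact h1 (by linear_combination -h0))
                    | (intro h0; exact h2 (by linear_combination h0))
                    | (intro h0; exact h2 (by linear_combination -h0)))
      · right; right; right; left
        refine ⟨t + 1, ?_, ?_⟩
        · simp only [List.nodup_cons, List.mem_cons, List.not_mem_nil, or_false, not_false_eq_true,
            List.nodup_nil, and_true, not_or]
          refine ⟨⟨?_, ?_, ?_⟩, ⟨?_, ?_⟩, ?_⟩ <;> (first
                    | (unfold Df; grind)
                    | grind
                    | (intro h0; exact h1 (by linear_combination h0))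
                    | (intro h0; exact h1 (by linear_combination -h0))
                    | (intro h0; exact h2 (by linear_combination h0))
                    | (intro h0; exact h2 (by linear_combination -h0)))
        · simp only [vl_cons, vl_nil, add_zero]
          have a1 : t + 1 - 1 = t := by ring
          have a2 : t + 1 + 1 = t + 2 := by ring
          rw [a1, a2]
          abel

/-- `d` meets the first block, disjoint blocks -/
theorem shape_meet (h : Dbl n G e s) (s0 : s ≠ 0) (s1 : s ≠ 1) (s2 : s ≠ -1) (h1 : (1 : ZMod n) ≠ 0)
    (h2 : (2 : ZMod n) ≠ 0) (h5 : (5 : ZMod n) ≠ 0) (d t m : ZMod n) (c1 : t ≠ m) (c2 : m ≠ t + 1)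
    (c3 : t ≠ m + 1) (hd : d = t ∨ d = t + 1) : ShapeL e s d t m := by
  unfold ShapeL
  rcases hd with rfl | hd
  · have e1 : e d + (e d + e (d + 1)) + (e m + e (m + 1))
        = e (d + s) + e (d + 1) + e m + e (m + 1) := by
      rw [h.dbl]
      abel
    rw [e1]
    by_cases c4 : m = d + s
    · subst c4
      right; right; right; right
      have e2 : e (d + s) + e (d + 1) + e (d + s) + e (d + s + 1)
          = e (d + 2 * s) + e (d + 1) + e (d + s + 1) := by
        have a1 : d + 2 * s = d + s + s := by ring
        rw [a1, h.dbl (d + s)]
        abel
      rw [e2]
      by_cases c5 : 2 * s = 1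
      · have e3 : e (d + 2 * s) + e (d + 1) + e (d + s + 1) = e (d + 2) := by
          have a1 : d + 2 * s = d + 1 := by rw [c5]
          have a2 : d + 2 = d + s + 1 + s := by linear_combination -c5
          have a3 : d + s + 1 = d + 1 + s := by ring
          rw [a1, a2, h.dbl (d + s + 1), a3, h.dbl (d + 1)]
        exact small1 e3 (by unfold Df; grind)
      · refine small3 ?_ ?_ ?_ rfl ?_ ?_ ?_ <;> (first
                    | (unfold Df; grind)
                    | grind
                    | (intro h0; exact h1 (by linear_combination h0))
                    | (intro h0; exact h1 (by linear_combination -h0))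
                    | (intro h0; exact h2 (by linear_combination h0))
                    | (intro h0; exact h2 (by linear_combination -h0)))
    · by_cases c5 : m + 1 = d + s
      · obtain rfl : m = d + s - 1 := by rw [← c5]; ring
        right; right; right; right
        have e2 : e (d + s) + e (d + 1) + e (d + s - 1) + e (d + s - 1 + 1)
            = e (d + 2 * s) + e (d + 1) + e (d + s - 1) := by
          have a1 : d + 2 * s = d + s + s := by ring
          have a2 : d + s - 1 + 1 = d + s := by ring
          rw [a1, a2, h.dbl (d + s)]
          abel
        rw [e2]
        by_cases c6 : 2 * s = 1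
        · have e3 : e (d + 2 * s) + e (d + 1) + e (d + s - 1) = e (d + s + 1) + e (d + s - 1) := by
            have a1 : d + 2 * s = d + 1 := by rw [c6]
            have a3 : d + s + 1 = d + 1 + s := by ring
            rw [a1, a3, h.dbl (d + 1)]
          refine small2 ?_ e3 ?_ ?_ <;> (first
                    | (unfold Df; grind)
                    | grind
                    | (intro h0; exact h1 (by linear_combination h0))
                    | (intro h0; exact h1 (by linear_combination -h0))
                    | (intro h0; exact h2 (by linear_combination h0))
                    | (intro h0; exact h2 (by linear_combination -h0)))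
        · by_cases c7 : s = 2
          · have e3 : e (d + 2 * s) + e (d + 1) + e (d + s - 1)
                = e (d + 2 * s) + e (d + s + 1) := by
              have a1 : d + s - 1 = d + 1 := by rw [c7]; ring
              have a3 : d + s + 1 = d + 1 + s := by ring
              rw [a1, a3, h.dbl (d + 1)]
              abel
            refine small2 ?_ e3 ?_ ?_ <;> (first
                    | (unfold Df; grind)
                    | grind
                    | (intro h0; exact h1 (by linear_combination h0))
                    | (intro h0; exact h1 (by linear_combination -h0))
                    | (intro h0; exact h2 (by linear_combination h0))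
                    | (intro h0; exact h2 (by linear_combination -h0)))
          · refine small3 ?_ ?_ ?_ rfl ?_ ?_ ?_ <;> (first
                    | (unfold Df; grind)
                    | grind
                    | (intro h0; exact h1 (by linear_combination h0))
                    | (intro h0; exact h1 (by linear_combination -h0))
                    | (intro h0; exact h2 (by linear_combination h0))
                    | (intro h0; exact h2 (by linear_combination -h0)))
      · right; left
        refine ⟨m, ?_, ?_⟩
        · have q1 : m ≠ m + 1 := fun h0 => h1 (by linear_combination -h0)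
          simp only [List.nodup_cons, List.mem_cons, List.not_mem_nil, or_false, not_false_eq_true,
            List.nodup_nil, and_true, not_or]
          grind
        · simp only [vl_cons, vl_nil, add_zero]
          abel
  · obtain rfl : t = d - 1 := by rw [hd]; ring
    have e1 : e d + (e (d - 1) + e (d - 1 + 1)) + (e m + e (m + 1))
        = e (d + s) + e (d - 1) + e m + e (m + 1) := by
      have a1 : d - 1 + 1 = d := by ring
      rw [a1, h.dbl]
      abel
    rw [e1]
    by_cases c4 : m = d + s
    · subst c4
      right; right; right; right
      have e2 : e (d + s) + e (d - 1) + e (d + s) + e (d + s + 1)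
          = e (d + 2 * s) + e (d - 1) + e (d + s + 1) := by
        have a1 : d + 2 * s = d + s + s := by ring
        rw [a1, h.dbl (d + s)]
        abel
      rw [e2]
      by_cases c5 : 2 * s = -1
      · have e3 : e (d + 2 * s) + e (d - 1) + e (d + s + 1) = e (d + s - 1) + e (d + s + 1) := by
          have a1 : d + 2 * s = d - 1 := by linear_combination c5
          have a3 : d + s - 1 = d - 1 + s := by ring
          rw [a1, a3, h.dbl (d - 1)]
        refine small2 ?_ e3 ?_ ?_ <;> (first
                    | (unfold Df; grind)
                    | grind
                    | (intro h0; exact h1 (by linear_combination h0))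
                    | (intro h0; exact h1 (by linear_combination -h0))
                    | (intro h0; exact h2 (by linear_combination h0))
                    | (intro h0; exact h2 (by linear_combination -h0)))
      · by_cases c7 : s = -2
        · have e3 : e (d + 2 * s) + e (d - 1) + e (d + s + 1)
              = e (d + 2 * s) + e (d + s - 1) := by
            have a1 : d + s + 1 = d - 1 := by rw [c7]; ring
            have a3 : d + s - 1 = d - 1 + s := by ring
            rw [a1, a3, h.dbl (d - 1)]
            abel
          refine small2 ?_ e3 ?_ ?_ <;> (first
                    | (unfold Df; grind)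
                    | grind
                    | (intro h0; exact h1 (by linear_combination h0))
                    | (intro h0; exact h1 (by linear_combination -h0))
                    | (intro h0; exact h2 (by linear_combination h0))
                    | (intro h0; exact h2 (by linear_combination -h0)))
        · refine small3 ?_ ?_ ?_ rfl ?_ ?_ ?_ <;> (first
                    | (unfold Df; grind)
                    | grind
                    | (intro h0; exact h1 (by linear_combination h0))
                    | (intro h0; exact h1 (by linear_combination -h0))
                    | (intro h0; exact h2 (by linear_combination h0))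
                    | (intro h0; exact h2 (by linear_combination -h0)))
    · by_cases c5 : m + 1 = d + s
      · obtain rfl : m = d + s - 1 := by rw [← c5]; ring
        right; right; right; right
        have e2 : e (d + s) + e (d - 1) + e (d + s - 1) + e (d + s - 1 + 1)
            = e (d + 2 * s) + e (d - 1) + e (d + s - 1) := by
          have a1 : d + 2 * s = d + s + s := by ring
          have a2 : d + s - 1 + 1 = d + s := by ring
          rw [a1, a2, h.dbl (d + s)]
          abel
        rw [e2]
        by_cases c6 : 2 * s = -1
        · have e3 : e (d + 2 * s) + e (d - 1) + e (d + s - 1) = e (d - 2) := by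
            have a1 : d + 2 * s = d - 1 := by linear_combination c6
            have a2 : d - 2 = d + s - 1 + s := by linear_combination -c6
            have a3 : d + s - 1 = d - 1 + s := by ring
            rw [a1, a2, h.dbl (d + s - 1), a3, h.dbl (d - 1)]
          exact small1 e3 (by unfold Df; grind)
        · refine small3 ?_ ?_ ?_ rfl ?_ ?_ ?_ <;> (first
                    | (unfold Df; grind)
                    | grind
                    | (intro h0; exact h1 (by linear_combination h0))
                    | (intro h0; exact h1 (by linear_combination -h0))
                    | (intro h0; exact h2 (by linear_combination h0))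
                    | (intro h0; exact h2 (by linear_combination -h0)))
      · right; right; left
        refine ⟨m, ?_, ?_⟩
        · have q1 : m ≠ m + 1 := fun h0 => h1 (by linear_combination -h0)
          simp only [List.nodup_cons, List.mem_cons, List.not_mem_nil, or_false, not_false_eq_true,
            List.nodup_nil, and_true, not_or]
          grind
        · simp only [vl_cons, vl_nil, add_zero]
          abel

/-- normal forms of the left hand side -/
theorem shapeL (h : Dbl n G e s) (s0 : s ≠ 0) (s1 : s ≠ 1) (s2 : s ≠ -1) (h1 : (1 : ZMod n) ≠ 0)
    (h2 : (2 : ZMod n) ≠ 0) (h5 : (5 : ZMod n) ≠ 0) (d t m : ZMod n) (c1 : t ≠ m) :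
    ShapeL e s d t m := by
  by_cases c2 : m = t + 1
  · subst c2
    exact shape_over h s0 s1 s2 h1 h2 h5 d t
  by_cases c3 : t = m + 1
  · subst c3
    exact (shape_over h s0 s1 s2 h1 h2 h5 d m).symm
  by_cases c4 : d = t ∨ d = t + 1
  · exact shape_meet h s0 s1 s2 h1 h2 h5 d t m c1 c2 c3 c4
  by_cases c5 : d = m ∨ d = m + 1
  · exact (shape_meet h s0 s1 s2 h1 h2 h5 d m t c1.symm c3 c2 c5).symm
  left
  simp only [List.nodup_cons, List.mem_cons, List.not_mem_nil, or_false, not_false_eq_true,
    List.nodup_nil, and_true, not_or]
  grind

end Pool.Agent.Lib.MP_eacabd_co.Uni8
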