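import Mathlib
import Pool.Agent.Lib.MP_eacabd_co.Uni8.NF

/-!
Uniform switching theorem: normal forms of the right hand side.
-/

set_option autoImplicit false

namespace Pool.Agent.Lib.MP_eacabd_co.Uni8

variable {n : ℕ} {G : Type} [AddCommGroup G] {e : ZMod n → G} {s : ZMod n}

/-- the element `l` is far from `k` -/
structure FarK (s k l : ZMod n) : Prop where
  f0 : l ≠ k
  f1 : l + 1 ≠ k
  g0 : l ≠ k + s
  g1 : l + 1 ≠ k + s
  h0 : l ≠ k + 2 * s
  h1 : l + 1 ≠ k + 2 * s
  i0 : l + s ≠ k
  i1 : l + 1 + s ≠ k
  j0 : l + 2 * s ≠ k
  j1 : l + 1 + 2 * s ≠ k
  k0 : l + 2 ≠ k
  k1 : l - 1 ≠ k

/-- the shapes of the right hand side -/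
def ShapeR (e : ZMod n → G) (s k l a b : ZMod n) : Prop :=
    [k, l, l + 1, a, b].Nodup ∨
    (∃ z, (a = k ∧ b = z ∨ a = z ∧ b = k) ∧ [k + s, l, l + 1, z].Nodup ∧
      e k + (e l + e (l + 1)) + (e a + e b) = vl e [k + s, l, l + 1, z]) ∨
    (∃ z, (a = l ∧ b = z ∨ a = z ∧ b = l) ∧ [l + s, l + 1, k, z].Nodup ∧
      e k + (e l + e (l + 1)) + (e a + e b) = vl e [l + s, l + 1, k, z]) ∨
    (∃ z, (a = l + 1 ∧ b = z ∨ a = z ∧ b = l + 1) ∧ [l + 1 + s, l, k, z].Nodup ∧
      e k + (e l + e (l + 1)) + (e a + e b) = vl e [l + 1 + s, l, k, z]) ∨
    ([k + 2 * s, l, l + 1].Nodup ∧
      e k + (e l + e (l + 1)) + (e a + e b) = vl e [k + 2 * s, l, l + 1]) ∨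
    ([k, l + 1, l + 2 * s].Nodup ∧
      e k + (e l + e (l + 1)) + (e a + e b) = vl e [k, l + 1, l + 2 * s]) ∨
    ([k, l + 1 + s].Nodup ∧
      e k + (e l + e (l + 1)) + (e a + e b) = vl e [k, l + 1 + s]) ∨
    ([k, l, l + 1 + 2 * s].Nodup ∧
      e k + (e l + e (l + 1)) + (e a + e b) = vl e [k, l, l + 1 + 2 * s]) ∨
    ([k, l + s].Nodup ∧
      e k + (e l + e (l + 1)) + (e a + e b) = vl e [k, l + s]) ∨
    ([k + s, l + s, l + 1].Nodup ∧
      e k + (e l + e (l + 1)) + (e a + e b) = vl e [k + s, l + s, l + 1]) ∨
    ([k + s, l, l + 1 + s].Nodup ∧
      e k + (e l + e (l + 1)) + (e a + e b) = vl e [k + s, l, l + 1 + s]) ∨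
    ([k, l + s, l + 1 + s].Nodup ∧
      e k + (e l + e (l + 1)) + (e a + e b) = vl e [k, l + s, l + 1 + s])

theorem ShapeR.symm {k l a b : ZMod n} (h : ShapeR e s k l a b) : ShapeR e s k l b a := by
  have e1 : e k + (e l + e (l + 1)) + (e b + e a) = e k + (e l + e (l + 1)) + (e a + e b) := by abel
  unfold ShapeR at *
  rw [e1]
  rcases h with h | ⟨z, h1, h2⟩ | ⟨z, h1, h2⟩ | ⟨z, h1, h2⟩ | h
  · left
    simp only [List.nodup_cons, List.mem_cons, List.not_mem_nil, or_false, not_false_eq_true,
      List.nodup_nil, and_true, not_or] at h ⊢
    grind
  · exact Or.inr (Or.inl ⟨z, by tauto, h2⟩)
  · exact Or.inr (Or.inr (Or.inl ⟨z, by tauto, h2⟩))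
  · exact Or.inr (Or.inr (Or.inr (Or.inl ⟨z, by tauto, h2⟩)))
  · exact Or.inr (Or.inr (Or.inr (Or.inr h)))

/-- `a` is one of the three known positions -/
theorem shapeR_meet (h : Dbl n G e s) (s0 : s ≠ 0) (s1 : s ≠ 1) (s2 : s ≠ -1)
    (h1 : (1 : ZMod n) ≠ 0) {k l : ZMod n} (hf : FarK s k l) {a b : ZMod n} (hab : a ≠ b)
    (ha : a = k ∨ a = l ∨ a = l + 1) : ShapeR e s k l a b := by
  obtain ⟨f0, f1, g0, g1, p0, p1, i0, i1, j0, j1, k0, k1⟩ := hf
  have q1 : l ≠ l + 1 := fun h0 => h1 (by linear_combination -h0)
  unfold ShapeR
  rcases ha with rfl | rfl | rfl
  · have e1 : e a + (e l + e (l + 1)) + (e a + e b) = e (a + s) + e l + e (l + 1) + e b := by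
      rw [h.dbl]
      abel
    rw [e1]
    by_cases c1 : b = l
    · subst c1
      right; right; right; right; right; right; right; right; right; left
      refine ⟨?_, ?_⟩
      · simp only [List.nodup_cons, List.mem_cons, List.not_mem_nil, or_false, not_false_eq_true,
          List.nodup_nil, and_true, not_or]
        refine ⟨⟨?_, ?_⟩, ?_⟩ <;> (first
                    | (unfold Df; grind)
                    | grind
                    | (intro h0; exact h1 (by linear_combination h0))
                    | (intro h0; exact h1 (by linear_combination -h0))
                    | (intro h0; exact s0 (by linear_combination h0))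
                    | (intro h0; exact s0 (by linear_combination -h0)))
      · simp only [vl_cons, vl_nil, add_zero]
        rw [h.dbl b]
        abel
    · by_cases c2 : b = l + 1
      · subst c2
        right; right; right; right; right; right; right; right; right; right; left
        refine ⟨?_, ?_⟩
        · simp only [List.nodup_cons, List.mem_cons, List.not_mem_nil, or_false, not_false_eq_true,
            List.nodup_nil, and_true, not_or]
          refine ⟨⟨?_, ?_⟩, ?_⟩ <;> (first
                    | (unfold Df; grind)
                    | grind
                    | (intro h0; exact h1 (by linear_combination h0))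
                    | (intro h0; exact h1 (by linear_combination -h0))
                    | (intro h0; exact s0 (by linear_combination h0))
                    | (intro h0; exact s0 (by linear_combination -h0)))
        · simp only [vl_cons, vl_nil, add_zero]
          rw [h.dbl (l + 1)]
          abel
      · by_cases c3 : b = a + s
        · subst c3
          right; right; right; right; left
          refine ⟨?_, ?_⟩
          · simp only [List.nodup_cons, List.mem_cons, List.not_mem_nil, or_false,
              not_false_eq_true, List.nodup_nil, and_true, not_or]
            refine ⟨⟨?_, ?_⟩, ?_⟩ <;> (first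
                    | (unfold Df; grind)
                    | grind
                    | (intro h0; exact h1 (by linear_combination h0))
                    | (intro h0; exact h1 (by linear_combination -h0))
                    | (intro h0; exact s0 (by linear_combination h0))
                    | (intro h0; exact s0 (by linear_combination -h0)))
          · simp only [vl_cons, vl_nil, add_zero]
            have a1 : a + 2 * s = a + s + s := by ring
            rw [a1, h.dbl (a + s)]
            abel
        · right; left
          refine ⟨b, Or.inl ⟨rfl, rfl⟩, ?_, ?_⟩
          · simp only [List.nodup_cons, List.mem_cons, List.not_mem_nil, or_false,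
              not_false_eq_true, List.nodup_nil, and_true, not_or]
            refine ⟨⟨?_, ?_, ?_⟩, ⟨?_, ?_⟩, ?_⟩ <;> (first
                    | (unfold Df; grind)
                    | grind
                    | (intro h0; exact h1 (by linear_combination h0))
                    | (intro h0; exact h1 (by linear_combination -h0))
                    | (intro h0; exact s0 (by linear_combination h0))
                    | (intro h0; exact s0 (by linear_combination -h0)))
          · simp only [vl_cons, vl_nil, add_zero]
            abel
  · have e1 : e k + (e a + e (a + 1)) + (e a + e b) = e (a + s) + e (a + 1) + e k + e b := by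
      rw [h.dbl]
      abel
    rw [e1]
    by_cases c1 : b = k
    · subst c1
      right; right; right; right; right; right; right; right; right; left
      refine ⟨?_, ?_⟩
      · simp only [List.nodup_cons, List.mem_cons, List.not_mem_nil, or_false, not_false_eq_true,
          List.nodup_nil, and_true, not_or]
        refine ⟨⟨?_, ?_⟩, ?_⟩ <;> (first
                    | (unfold Df; grind)
                    | grind
                    | (intro h0; exact h1 (by linear_combination h0))
                    | (intro h0; exact h1 (by linear_combination -h0))
                    | (intro h0; exact s0 (by linear_combination h0))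
                    | (intro h0; exact s0 (by linear_combination -h0)))
      · simp only [vl_cons, vl_nil, add_zero]
        rw [h.dbl b]
        abel
    · by_cases c2 : b = a + 1
      · subst c2
        right; right; right; right; right; right; right; right; right; right; right
        refine ⟨?_, ?_⟩
        · simp only [List.nodup_cons, List.mem_cons, List.not_mem_nil, or_false, not_false_eq_true,
            List.nodup_nil, and_true, not_or]
          refine ⟨⟨?_, ?_⟩, ?_⟩ <;> (first
                    | (unfold Df; grind)
                    | grind
                    | (intro h0; exact h1 (by linear_combination h0))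
                    | (intro h0; exact h1 (by linear_combination -h0))
                    | (intro h0; exact s0 (by linear_combination h0))
                    | (intro h0; exact s0 (by linear_combination -h0)))
        · simp only [vl_cons, vl_nil, add_zero]
          rw [h.dbl (a + 1)]
          abel
      · by_cases c3 : b = a + s
        · subst c3
          by_cases c4 : 2 * s = 1
          · right; right; right; right; right; right; left
            refine ⟨?_, ?_⟩
            · simp only [List.nodup_cons, List.mem_cons, List.not_mem_nil, or_false,
                not_false_eq_true, List.nodup_nil, and_true, not_or]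
              (first
                    | (unfold Df; grind)
                    | grind
                    | (intro h0; exact h1 (by linear_combination h0))
                    | (intro h0; exact h1 (by linear_combination -h0))
                    | (intro h0; exact s0 (by linear_combination h0))
                    | (intro h0; exact s0 (by linear_combination -h0)))
            · simp only [vl_cons, vl_nil, add_zero]
              have a1 : a + s + s = a + 1 := by linear_combination c4
              have a2 := h.dbl (a + s)
              rw [a1] at a2
              rw [h.dbl (a + 1), a2]
              abel
          · right; right; right; right; right; left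
            refine ⟨?_, ?_⟩
            · simp only [List.nodup_cons, List.mem_cons, List.not_mem_nil, or_false,
                not_false_eq_true, List.nodup_nil, and_true, not_or]
              refine ⟨⟨?_, ?_⟩, ?_⟩ <;> (first
                    | (unfold Df; grind)
                    | grind
                    | (intro h0; exact h1 (by linear_combination h0))
                    | (intro h0; exact h1 (by linear_combination -h0))
                    | (intro h0; exact s0 (by linear_combination h0))
                    | (intro h0; exact s0 (by linear_combination -h0)))
            · simp only [vl_cons, vl_nil, add_zero]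
              have a1 : a + 2 * s = a + s + s := by ring
              rw [a1, h.dbl (a + s)]
              abel
        · right; right; left
          refine ⟨b, Or.inl ⟨rfl, rfl⟩, ?_, ?_⟩
          · simp only [List.nodup_cons, List.mem_cons, List.not_mem_nil, or_false,
              not_false_eq_true, List.nodup_nil, and_true, not_or]
            refine ⟨⟨?_, ?_, ?_⟩, ⟨?_, ?_⟩, ?_⟩ <;> (first
                    | (unfold Df; grind)
                    | grind
                    | (intro h0; exact h1 (by linear_combination h0))
                    | (intro h0; exact h1 (by linear_combination -h0))
                    | (intro h0; exact s0 (by linear_combination h0))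
                    | (intro h0; exact s0 (by linear_combination -h0)))
          · simp only [vl_cons, vl_nil, add_zero]
            abel
  · have e1 : e k + (e l + e (l + 1)) + (e (l + 1) + e b) = e (l + 1 + s) + e l + e k + e b := by
      rw [h.dbl]
      abel
    rw [e1]
    by_cases c1 : b = k
    · subst c1
      right; right; right; right; right; right; right; right; right; right; left
      refine ⟨?_, ?_⟩
      · simp only [List.nodup_cons, List.mem_cons, List.not_mem_nil, or_false, not_false_eq_true,
          List.nodup_nil, and_true, not_or]
        refine ⟨⟨?_, ?_⟩, ?_⟩ <;> (first
                    | (unfold Df; grind)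
                    | grind
                    | (intro h0; exact h1 (by linear_combination h0))
                    | (intro h0; exact h1 (by linear_combination -h0))
                    | (intro h0; exact s0 (by linear_combination h0))
                    | (intro h0; exact s0 (by linear_combination -h0)))
      · simp only [vl_cons, vl_nil, add_zero]
        rw [h.dbl b]
        abel
    · by_cases c2 : b = l
      · subst c2
        right; right; right; right; right; right; right; right; right; right; right
        refine ⟨?_, ?_⟩
        · simp only [List.nodup_cons, List.mem_cons, List.not_mem_nil, or_false, not_false_eq_true,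
            List.nodup_nil, and_true, not_or]
          refine ⟨⟨?_, ?_⟩, ?_⟩ <;> (first
                    | (unfold Df; grind)
                    | grind
                    | (intro h0; exact h1 (by linear_combination h0))
                    | (intro h0; exact h1 (by linear_combination -h0))
                    | (intro h0; exact s0 (by linear_combination h0))
                    | (intro h0; exact s0 (by linear_combination -h0)))
        · simp only [vl_cons, vl_nil, add_zero]
          rw [h.dbl b]
          abel
      · by_cases c3 : b = l + 1 + s
        · subst c3
          by_cases c4 : 2 * s = -1
          · right; right; right; right; right; right; right; right; left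
            refine ⟨?_, ?_⟩
            · simp only [List.nodup_cons, List.mem_cons, List.not_mem_nil, or_false,
                not_false_eq_true, List.nodup_nil, and_true, not_or]
              (first
                    | (unfold Df; grind)
                    | grind
                    | (intro h0; exact h1 (by linear_combination h0))
                    | (intro h0; exact h1 (by linear_combination -h0))
                    | (intro h0; exact s0 (by linear_combination h0))
                    | (intro h0; exact s0 (by linear_combination -h0)))
            · simp only [vl_cons, vl_nil, add_zero]
              have a1 : l + 1 + s + s = l := by linear_combination c4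
              have a2 := h.dbl (l + 1 + s)
              rw [a1] at a2
              rw [h.dbl l]
              nth_rewrite 2 [a2]
              abel
          · right; right; right; right; right; right; right; left
            refine ⟨?_, ?_⟩
            · simp only [List.nodup_cons, List.mem_cons, List.not_mem_nil, or_false,
                not_false_eq_true, List.nodup_nil, and_true, not_or]
              refine ⟨⟨?_, ?_⟩, ?_⟩ <;> (first
                    | (unfold Df; grind)
                    | grind
                    | (intro h0; exact h1 (by linear_combination h0))
                    | (intro h0; exact h1 (by linear_combination -h0))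
                    | (intro h0; exact s0 (by linear_combination h0))
                    | (intro h0; exact s0 (by linear_combination -h0)))
            · simp only [vl_cons, vl_nil, add_zero]
              have a1 : l + 1 + 2 * s = l + 1 + s + s := by ring
              rw [a1, h.dbl (l + 1 + s)]
              abel
        · right; right; right; left
          refine ⟨b, Or.inl ⟨rfl, rfl⟩, ?_, ?_⟩
          · simp only [List.nodup_cons, List.mem_cons, List.not_mem_nil, or_false,
              not_false_eq_true, List.nodup_nil, and_true, not_or]
            refine ⟨⟨?_, ?_, ?_⟩, ⟨?_, ?_⟩, ?_⟩ <;> (first
                    | (unfold Df; grind)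
                    | grind
                    | (intro h0; exact h1 (by linear_combination h0))
                    | (intro h0; exact h1 (by linear_combination -h0))
                    | (intro h0; exact s0 (by linear_combination h0))
                    | (intro h0; exact s0 (by linear_combination -h0)))
          · simp only [vl_cons, vl_nil, add_zero]
            abel

/-- normal forms of the right hand side -/
theorem shapeR (h : Dbl n G e s) (s0 : s ≠ 0) (s1 : s ≠ 1) (s2 : s ≠ -1)
    (h1 : (1 : ZMod n) ≠ 0) {k l : ZMod n} (hf : FarK s k l) {a b : ZMod n} (hab : a ≠ b) :
    ShapeR e s k l a b := by
  by_cases c1 : a = k ∨ a = l ∨ a = l + 1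
  · exact shapeR_meet h s0 s1 s2 h1 hf hab c1
  by_cases c2 : b = k ∨ b = l ∨ b = l + 1
  · exact (shapeR_meet h s0 s1 s2 h1 hf hab.symm c2).symm
  left
  obtain ⟨f0, f1, g0, g1, p0, p1, i0, i1, j0, j1, k0, k1⟩ := hf
  have q1 : l ≠ l + 1 := fun h0 => h1 (by linear_combination -h0)
  simp only [List.nodup_cons, List.mem_cons, List.not_mem_nil, or_false, not_false_eq_true,
    List.nodup_nil, and_true, not_or]
  grind

end Pool.Agent.Lib.MP_eacabd_co.Uni8
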