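import Mathlib
import Pool.Agent.Lib.MP_eacabd_co.Uni8.NFR

/-!
Uniform switching theorem: classification of the solutions of the equation of exponents.
-/

set_option autoImplicit false

namespace Pool.Agent.Lib.MP_eacabd_co.Uni8

open Finset

variable {n : ℕ} {G : Type} [AddCommGroup G] {e : ZMod n → G} {s : ZMod n}

theorem bad_far {c d l : ZMod n} (h : l ∉ Bad s c d) (α β : ℤ) (h1 : -6 ≤ α) (h2 : α ≤ 3)
    (h3 : -2 ≤ β) (h4 : β ≤ 2) :
    l ≠ c + (α : ZMod n) + (β : ZMod n) * s ∧ l ≠ d + (α : ZMod n) + (β : ZMod n) * s := by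
  unfold Bad at h
  rw [mem_union, not_or, mem_image, mem_image] at h
  have hm : (α, β) ∈ Icc (-6 : ℤ) 3 ×ˢ Icc (-2 : ℤ) 2 :=
    mem_product.2 ⟨mem_Icc.2 ⟨h1, h2⟩, mem_Icc.2 ⟨h3, h4⟩⟩
  exact ⟨fun h0 => h.1 ⟨(α, β), hm, h0.symm⟩, fun h0 => h.2 ⟨(α, β), hm, h0.symm⟩⟩

theorem farK_of {c d l : ZMod n} (h : l ∉ Bad s c d) : FarK s (c + 1) l := by
  have f := fun α β h1 h2 h3 h4 => (bad_far h α β h1 h2 h3 h4).1
  have a0 := f 1 0 (by norm_num) (by norm_num) (by norm_num) (by norm_num)
  have a1 := f 0 0 (by norm_num) (by norm_num) (by norm_num) (by norm_num)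
  have a2 := f 1 1 (by norm_num) (by norm_num) (by norm_num) (by norm_num)
  have a3 := f 0 1 (by norm_num) (by norm_num) (by norm_num) (by norm_num)
  have a4 := f 1 2 (by norm_num) (by norm_num) (by norm_num) (by norm_num)
  have a5 := f 0 2 (by norm_num) (by norm_num) (by norm_num) (by norm_num)
  have a6 := f 1 (-1) (by norm_num) (by norm_num) (by norm_num) (by norm_num)
  have a7 := f 0 (-1) (by norm_num) (by norm_num) (by norm_num) (by norm_num)
  have a8 := f 1 (-2) (by norm_num) (by norm_num) (by norm_num) (by norm_num)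
  have a9 := f 0 (-2) (by norm_num) (by norm_num) (by norm_num) (by norm_num)
  have b0 := f (-1) 0 (by norm_num) (by norm_num) (by norm_num) (by norm_num)
  have b1 := f 2 0 (by norm_num) (by norm_num) (by norm_num) (by norm_num)
  push_cast at a0 a1 a2 a3 a4 a5 a6 a7 a8 a9 b0 b1
  refine ⟨?_, ?_, ?_, ?_, ?_, ?_, ?_, ?_, ?_, ?_, ?_, ?_⟩
  · exact fun h0 => a0 (by linear_combination h0)
  · exact fun h0 => a1 (by linear_combination h0)
  · exact fun h0 => a2 (by linear_combination h0)
  · exact fun h0 => a3 (by linear_combination h0)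
  · exact fun h0 => a4 (by linear_combination h0)
  · exact fun h0 => a5 (by linear_combination h0)
  · exact fun h0 => a6 (by linear_combination h0)
  · exact fun h0 => a7 (by linear_combination h0)
  · exact fun h0 => a8 (by linear_combination h0)
  · exact fun h0 => a9 (by linear_combination h0)
  · exact fun h0 => b0 (by linear_combination h0)
  · exact fun h0 => b1 (by linear_combination h0)

/-- `x` (a form of `l`) is none of the forms of `d` -/
theorem not_Df {c d l : ZMod n} (h : l ∉ Bad s c d) {x : ZMod n}
    (hx : x = l ∨ x = l + 1 ∨ x = l + s ∨ x = l + 1 + s) : ¬ Df s d x ∧ x ≠ d := by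
  have f : ∀ (p q : ℤ), (p = 0 ∨ p = 1) → (q = 0 ∨ q = 1) → ∀ α β : ℤ, -2 ≤ α → α ≤ 2 → -1 ≤ β →
      β ≤ 2 → l + (p : ZMod n) + (q : ZMod n) * s ≠ d + (α : ZMod n) + (β : ZMod n) * s := by
    intro p q hp hq α β h1 h2 h3 h4 h0
    have := (bad_far h (α - p) (β - q) (by omega) (by omega) (by omega) (by omega)).2
    apply this
    push_cast
    linear_combination h0
  have g : ∀ (p q : ℤ), (p = 0 ∨ p = 1) → (q = 0 ∨ q = 1) →
      ¬ Df s d (l + (p : ZMod n) + (q : ZMod n) * s) ∧ l + (p : ZMod n) + (q : ZMod n) * s ≠ d := by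
    intro p q hp hq
    refine ⟨?_, ?_⟩
    · intro hD
      rcases hD with h0 | h0 | h0 | h0 | h0 | h0 | h0 | h0 | h0 | h0
      · exact f p q hp hq (-2) 0 (by norm_num) (by norm_num) (by norm_num) (by norm_num)
          (by push_cast; linear_combination h0)
      · exact f p q hp hq (-1) 0 (by norm_num) (by norm_num) (by norm_num) (by norm_num)
          (by push_cast; linear_combination h0)
      · exact f p q hp hq 1 0 (by norm_num) (by norm_num) (by norm_num) (by norm_num)
          (by push_cast; linear_combination h0)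
      · exact f p q hp hq 2 0 (by norm_num) (by norm_num) (by norm_num) (by norm_num)
          (by push_cast; linear_combination h0)
      · exact f p q hp hq 0 1 (by norm_num) (by norm_num) (by norm_num) (by norm_num)
          (by push_cast; linear_combination h0)
      · exact f p q hp hq (-1) 1 (by norm_num) (by norm_num) (by norm_num) (by norm_num)
          (by push_cast; linear_combination h0)
      · exact f p q hp hq 1 1 (by norm_num) (by norm_num) (by norm_num) (by norm_num)
          (by push_cast; linear_combination h0)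
      · exact f p q hp hq (-1) (-1) (by norm_num) (by norm_num) (by norm_num) (by norm_num)
          (by push_cast; linear_combination h0)
      · exact f p q hp hq 1 (-1) (by norm_num) (by norm_num) (by norm_num) (by norm_num)
          (by push_cast; linear_combination h0)
      · exact f p q hp hq 0 2 (by norm_num) (by norm_num) (by norm_num) (by norm_num)
          (by push_cast; linear_combination h0)
    · intro h0
      exact f p q hp hq 0 0 (by norm_num) (by norm_num) (by norm_num) (by norm_num)
        (by push_cast; linear_combination h0)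
  rcases hx with rfl | rfl | rfl | rfl
  · have := g 0 0 (Or.inl rfl) (Or.inl rfl)
    simpa using this
  · have := g 1 0 (Or.inr rfl) (Or.inl rfl)
    simpa using this
  · have := g 0 1 (Or.inl rfl) (Or.inr rfl)
    simpa using this
  · have := g 1 1 (Or.inr rfl) (Or.inr rfl)
    simpa using this

theorem nat_ne (hn : 7 ≤ n) {m : ℕ} (h0 : 0 < m) (h1 : m < n) : ((m : ℕ) : ZMod n) ≠ 0 := by
  intro h
  rw [ZMod.natCast_eq_zero_iff] at h
  exact absurd (Nat.le_of_dvd h0 h) (by omega)

end Pool.Agent.Lib.MP_eacabd_co.Uni8
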