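import Mathlib
import Pool.Agent.Lib.MP_eacabd_co.Uni8.ClsA

/-!
Uniform switching theorem: classification of the solutions of the equation of exponents.
-/

set_option autoImplicit false

namespace Pool.Agent.Lib.MP_eacabd_co.Uni8

open Finset

variable {n : ℕ} {G : Type} [AddCommGroup G] {e : ZMod n → G} {s : ZMod n}

/-- two elements `l`, `l + 1` which are neither `p` nor `q` -/
theorem cls_blk {l y p q : ZMod n} (h1 : (1 : ZMod n) ≠ 0) (h2 : (2 : ZMod n) ≠ 0)
    (a0 : l = p ∨ l = q ∨ l = y ∨ l = y + 1)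
    (a1 : l + 1 = p ∨ l + 1 = q ∨ l + 1 = y ∨ l + 1 = y + 1) (b0 : l ≠ p) (b1 : l ≠ q)
    (b2 : l + 1 ≠ p) (b3 : l + 1 ≠ q) : l = y := by
  rcases a0 with h | h | h | h
  · exact absurd h b0
  · exact absurd h b1
  · exact h
  · rcases a1 with k | k | k | k
    · exact absurd k b2
    · exact absurd k b3
    · exact absurd (show (2 : ZMod n) = 0 by linear_combination k - h) h2
    · exact absurd (show (1 : ZMod n) = 0 by linear_combination k - h) h1

theorem smallL_no {c d l : ZMod n} (h : Dbl n G e s) (hl : l ∉ Bad s c d) {v : G}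
    (hA : SmallL e s d v) (x : ZMod n) (hx : x = l ∨ x = l + 1 ∨ x = l + s ∨ x = l + 1 + s)
    (B : List (ZMod n)) (hB : B.Nodup) (hB5 : B.length ≤ 5) (hv : v = vl e B) (hxB : x ∈ B) :
    False := by
  obtain ⟨A, hA1, hA2, hA3, hA4⟩ := hA
  have := (h.mem hA1 hB (by omega) hB5 (by rw [← hA3, hv])).2.2 x hxB
  exact (not_Df hl hx).1 (hA4 x this)

/-- the facts on `l` against `c` and `d` -/
structure FarU (s c d l : ZMod n) : Prop where
  fc : ∀ α β : ℤ, -6 ≤ α → α ≤ 3 → -2 ≤ β → β ≤ 2 → l ≠ c + (α : ZMod n) + (β : ZMod n) * s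
  fd : ∀ α β : ℤ, -6 ≤ α → α ≤ 3 → -2 ≤ β → β ≤ 2 → l ≠ d + (α : ZMod n) + (β : ZMod n) * s

theorem farU_of {c d l : ZMod n} (h : l ∉ Bad s c d) : FarU s c d l :=
  ⟨fun α β h1 h2 h3 h4 => (bad_far h α β h1 h2 h3 h4).1,
    fun α β h1 h2 h3 h4 => (bad_far h α β h1 h2 h3 h4).2⟩

theorem cls_55 {c d l a b t m : ZMod n} (h1 : (1 : ZMod n) ≠ 0) (h2 : (2 : ZMod n) ≠ 0)
    (hf : FarU s c d l) (hd : d ≠ c + 1) (hA : [d, t, t + 1, m, m + 1].Nodup)
    (hB : [c + 1, l, l + 1, a, b].Nodup)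
    (hAB : ∀ x ∈ [d, t, t + 1, m, m + 1], x ∈ [c + 1, l, l + 1, a, b])
    (hBA : ∀ x ∈ [c + 1, l, l + 1, a, b], x ∈ [d, t, t + 1, m, m + 1]) :
    ((a = c ∧ b = d ∨ a = d ∧ b = c) ∧ (t = c ∧ m = l ∨ t = l ∧ m = c)) ∨
    ((a = c + 2 ∧ b = d ∨ a = d ∧ b = c + 2) ∧ (t = c + 1 ∧ m = l ∨ t = l ∧ m = c + 1)) := by
  have g0 := hf.fc 1 0 (by norm_num) (by norm_num) (by norm_num) (by norm_num)
  have g1 := hf.fc 0 0 (by norm_num) (by norm_num) (by norm_num) (by norm_num)
  have g2 := hf.fc (-1) 0 (by norm_num) (by norm_num) (by norm_num) (by norm_num)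
  have g3 := hf.fc 2 0 (by norm_num) (by norm_num) (by norm_num) (by norm_num)
  have k0 := hf.fd 0 0 (by norm_num) (by norm_num) (by norm_num) (by norm_num)
  have k1 := hf.fd (-1) 0 (by norm_num) (by norm_num) (by norm_num) (by norm_num)
  push_cast at g0 g1 g2 g3 k0 k1
  simp only [List.nodup_cons, List.mem_cons, List.not_mem_nil, or_false, not_false_eq_true,
    List.nodup_nil, and_true, not_or, forall_eq_or_imp, forall_eq] at hA hB hAB hBA
  obtain ⟨bc, bl, bl1, ba, bb⟩ := hBA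
  have key : t = l ∨ m = l := by
    clear hAB
    grind
  have key2 : (t = l ∧ (m = c ∨ m = c + 1)) ∨ (m = l ∧ (t = c ∨ t = c + 1)) := by
    clear hAB
    grind
  grind

/-- `[d + s, w, y, y + 1]`, `w = d + 1` or `w = d - 1`, against `[κ + s, l, l + 1, z]` -/
theorem cls_4a_k {c d l y z w : ZMod n} (h1 : (1 : ZMod n) ≠ 0) (h2 : (2 : ZMod n) ≠ 0)
    (hf : FarU s c d l) (hd : d ≠ c + 1) (hw : w = d + 1 ∨ w = d - 1)
    (hBA : ∀ x ∈ [c + 1 + s, l, l + 1, z], x ∈ [d + s, w, y, y + 1]) :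
    d = c + s ∨ d = c + s + 2 := by
  have k0 := hf.fd 0 1 (by norm_num) (by norm_num) (by norm_num) (by norm_num)
  have k1 := hf.fd (-1) 1 (by norm_num) (by norm_num) (by norm_num) (by norm_num)
  have k2 := hf.fd 1 0 (by norm_num) (by norm_num) (by norm_num) (by norm_num)
  have k3 := hf.fd 0 0 (by norm_num) (by norm_num) (by norm_num) (by norm_num)
  have k4 := hf.fd (-1) 0 (by norm_num) (by norm_num) (by norm_num) (by norm_num)
  have k5 := hf.fd (-2) 0 (by norm_num) (by norm_num) (by norm_num) (by norm_num)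
  have g0 := hf.fc 1 1 (by norm_num) (by norm_num) (by norm_num) (by norm_num)
  have g1 := hf.fc 0 1 (by norm_num) (by norm_num) (by norm_num) (by norm_num)
  push_cast at k0 k1 k2 k3 k4 k5 g0 g1
  simp only [List.mem_cons, List.not_mem_nil, or_false, forall_eq_or_imp, forall_eq] at hBA
  obtain ⟨bc, bl, bl1, bz⟩ := hBA
  have hy : l = y := cls_blk h1 h2 bl bl1 (by grind) (by grind) (by grind) (by grind)
  subst hy
  grind

/-- `[d + s, w, y, y + 1]` against `[l + s, l + 1, κ, z]` -/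
theorem cls_4a_l {c d l y z w : ZMod n} (h1 : (1 : ZMod n) ≠ 0) (s0 : s ≠ 0)
    (hf : FarU s c d l) (hw : w = d + 1 ∨ w = d - 1)
    (hB : [l + s, l + 1, c + 1, z].Nodup)
    (hBA : ∀ x ∈ [l + s, l + 1, c + 1, z], x ∈ [d + s, w, y, y + 1]) : s = 2 := by
  have k0 := hf.fd 0 0 (by norm_num) (by norm_num) (by norm_num) (by norm_num)
  have k1 := hf.fd 1 (-1) (by norm_num) (by norm_num) (by norm_num) (by norm_num)
  have k2 := hf.fd (-1) (-1) (by norm_num) (by norm_num) (by norm_num) (by norm_num)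
  have k3 := hf.fd (-1) 1 (by norm_num) (by norm_num) (by norm_num) (by norm_num)
  have k4 := hf.fd (-2) 0 (by norm_num) (by norm_num) (by norm_num) (by norm_num)
  push_cast at k0 k1 k2 k3 k4
  simp only [List.nodup_cons, List.mem_cons, List.not_mem_nil, or_false, not_false_eq_true,
    List.nodup_nil, and_true, not_or, forall_eq_or_imp, forall_eq] at hB hBA
  obtain ⟨bl, bl1, bc, bz⟩ := hBA
  have e1 : l + s = y ∨ l + s = y + 1 := by
    clear bl1 bc bz
    grind
  have e2 : l + 1 = y ∨ l + 1 = y + 1 := by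
    clear bl bc bz
    grind
  clear bl bl1 bc bz
  rcases e1 with e1 | e1 <;> rcases e2 with e2 | e2
  · exact absurd (e1.trans e2.symm) hB.1.1
  · exact absurd (show s = 0 by linear_combination e1 - e2) s0
  · linear_combination e1 - e2
  · exact absurd (e1.trans e2.symm) hB.1.1

/-- `[d + s, w, y, y + 1]` against `[l + 1 + s, l, κ, z]` -/
theorem cls_4a_l' {c d l y z w : ZMod n} (h1 : (1 : ZMod n) ≠ 0) (s0 : s ≠ 0)
    (hf : FarU s c d l) (hw : w = d + 1 ∨ w = d - 1) (hcd : c ≠ d)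
    (hB : [l + 1 + s, l, c + 1, z].Nodup)
    (hBA : ∀ x ∈ [l + 1 + s, l, c + 1, z], x ∈ [d + s, w, y, y + 1]) :
    s = -2 ∧ (d = c + 2 ∨ d = c + 3) ∧ (z = d + 1 ∨ z = d - 1 ∨ z = d - 2) := by
  have k0 := hf.fd (-1) 0 (by norm_num) (by norm_num) (by norm_num) (by norm_num)
  have k1 := hf.fd 0 (-1) (by norm_num) (by norm_num) (by norm_num) (by norm_num)
  have k2 := hf.fd (-2) (-1) (by norm_num) (by norm_num) (by norm_num) (by norm_num)
  have k3 := hf.fd 0 1 (by norm_num) (by norm_num) (by norm_num) (by norm_num)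
  have k4 := hf.fd 1 0 (by norm_num) (by norm_num) (by norm_num) (by norm_num)
  have g0 := hf.fc 1 0 (by norm_num) (by norm_num) (by norm_num) (by norm_num)
  have g1 := hf.fc 2 0 (by norm_num) (by norm_num) (by norm_num) (by norm_num)
  push_cast at k0 k1 k2 k3 k4 g0 g1
  simp only [List.nodup_cons, List.mem_cons, List.not_mem_nil, or_false, not_false_eq_true,
    List.nodup_nil, and_true, not_or, forall_eq_or_imp, forall_eq] at hB hBA
  obtain ⟨bl, bl1, bc, bz⟩ := hBA
  have e1 : l + 1 + s = y ∨ l + 1 + s = y + 1 := by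
    clear bl1 bc bz
    grind
  have e2 : l = y ∨ l = y + 1 := by
    clear bl bc bz
    grind
  clear bl bl1
  rcases e1 with e1 | e1 <;> rcases e2 with e2 | e2
  · exact absurd (e1.trans e2.symm) hB.1.1
  · have hs : s = -2 := by linear_combination e1 - e2
    refine ⟨hs, ?_, ?_⟩
    · grind
    · grind
  · exact absurd (show s = 0 by linear_combination e1 - e2) s0
  · exact absurd (e1.trans e2.symm) hB.1.1

/-- `[d, q - 1, q + s, q + 1]` against `[κ + s, l, l + 1, z]` -/
theorem cls_4c_k {c d l q z : ZMod n} (h1 : (1 : ZMod n) ≠ 0) (h3 : (3 : ZMod n) ≠ 0)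
    (s0 : s ≠ 0) (hf : FarU s c d l) (hcd : c ≠ d + 1)
    (hBA : ∀ x ∈ [c + 1 + s, l, l + 1, z], x ∈ [d, q - 1, q + s, q + 1]) : s = 2 := by
  have k0 := hf.fd 0 0 (by norm_num) (by norm_num) (by norm_num) (by norm_num)
  have k1 := hf.fd (-1) 0 (by norm_num) (by norm_num) (by norm_num) (by norm_num)
  have g0 := hf.fc 1 1 (by norm_num) (by norm_num) (by norm_num) (by norm_num)
  have g1 := hf.fc 0 1 (by norm_num) (by norm_num) (by norm_num) (by norm_num)
  have g2 := hf.fc (-2) 1 (by norm_num) (by norm_num) (by norm_num) (by norm_num)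
  push_cast at k0 k1 g0 g1 g2
  simp only [List.mem_cons, List.not_mem_nil, or_false, forall_eq_or_imp, forall_eq] at hBA
  obtain ⟨bc, bl, bl1, bz⟩ := hBA
  clear bz
  rcases bl with bl | bl | bl | bl
  · grind
  · rcases bl1 with bl1 | bl1 | bl1 | bl1
    · grind
    · exact absurd (show (1 : ZMod n) = 0 by linear_combination bl1 - bl) h1
    · exact absurd (show s = 0 by linear_combination bl - bl1) s0
    · exact absurd (show (1 : ZMod n) = 0 by linear_combination bl - bl1) h1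
  · rcases bl1 with bl1 | bl1 | bl1 | bl1
    · grind
    · have hs : s = -2 := by linear_combination bl1 - bl
      rcases bc with bc | bc | bc | bc
      · exact absurd (show c = d + 1 by linear_combination bc - hs) hcd
      · exact absurd (show l = c + 0 + 1 * s by linear_combination bl1 - bc) (by simpa using g1)
      · exact absurd (show l = c + 1 + 1 * s by linear_combination bl - bc) g0
      · exact absurd (show l = c + (-2) + 1 * s by linear_combination bl1 - bc) g2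
    · exact absurd (show (1 : ZMod n) = 0 by linear_combination bl1 - bl) h1
    · exact absurd (show s = 0 by linear_combination bl1 - bl) s0
  · rcases bl1 with bl1 | bl1 | bl1 | bl1
    · grind
    · exact absurd (show (3 : ZMod n) = 0 by linear_combination bl1 - bl) h3
    · linear_combination bl - bl1
    · exact absurd (show (1 : ZMod n) = 0 by linear_combination bl1 - bl) h1

/-- two different elements of `[q - 1, q + s, q + 1]` -/
theorem tri_diff {q x y : ZMod n} (hx : x = q - 1 ∨ x = q + s ∨ x = q + 1)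
    (hy : y = q - 1 ∨ y = q + s ∨ y = q + 1) (hxy : x ≠ y) :
    x = y + 2 ∨ x = y - 2 ∨ x = y + (s + 1) ∨ x = y - (s + 1) ∨ x = y + (s - 1) ∨
      x = y - (s - 1) := by
  rcases hx with hx | hx | hx <;> rcases hy with hy | hy | hy
  · exact absurd (hx.trans hy.symm) hxy
  · exact Or.inr (Or.inr (Or.inr (Or.inl (by linear_combination hx - hy))))
  · exact Or.inr (Or.inl (by linear_combination hx - hy))
  · exact Or.inr (Or.inr (Or.inl (by linear_combination hx - hy)))
  · exact absurd (hx.trans hy.symm) hxy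
  · exact Or.inr (Or.inr (Or.inr (Or.inr (Or.inl (by linear_combination hx - hy)))))
  · exact Or.inl (by linear_combination hx - hy)
  · exact Or.inr (Or.inr (Or.inr (Or.inr (Or.inr (by linear_combination hx - hy)))))
  · exact absurd (hx.trans hy.symm) hxy

/-- `[d, q - 1, q + s, q + 1]` against a list with `κ` and `x` -/
theorem cls_4c {c d l q x : ZMod n} (hf : FarU s c d l) (hd : d ≠ c + 1)
    (hx : x = l + 1 ∨ x = l) (bc : c + 1 ∈ [d, q - 1, q + s, q + 1])
    (bx : x ∈ [d, q - 1, q + s, q + 1]) : False := by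
  simp only [List.mem_cons, List.not_mem_nil, or_false] at bc bx
  have hxd : x ≠ d := by
    have k0 := hf.fd 0 0 (by norm_num) (by norm_num) (by norm_num) (by norm_num)
    have k1 := hf.fd (-1) 0 (by norm_num) (by norm_num) (by norm_num) (by norm_num)
    push_cast at k0 k1
    rcases hx with rfl | rfl
    · exact fun h0 => k1 (by linear_combination h0)
    · exact fun h0 => k0 (by linear_combination h0)
  have hkx : c + 1 ≠ x := by
    have k0 := hf.fc 0 0 (by norm_num) (by norm_num) (by norm_num) (by norm_num)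
    have k1 := hf.fc 1 0 (by norm_num) (by norm_num) (by norm_num) (by norm_num)
    push_cast at k0 k1
    rcases hx with rfl | rfl
    · exact fun h0 => k0 (by linear_combination -h0)
    · exact fun h0 => k1 (by linear_combination -h0)
  replace bc := bc.resolve_left (fun h0 => hd h0.symm)
  replace bx := bx.resolve_left hxd
  have T := tri_diff bc bx hkx
  obtain ⟨p, hp, hxp⟩ : ∃ p : ℤ, (p = 0 ∨ p = 1) ∧ x = l + (p : ZMod n) := by
    rcases hx with rfl | rfl
    · exact ⟨1, Or.inr rfl, by push_cast; ring⟩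
    · exact ⟨0, Or.inl rfl, by push_cast; ring⟩
  have F : ∀ α β : ℤ, -2 ≤ α → α ≤ 2 → -1 ≤ β → β ≤ 1 →
      c + 1 ≠ x + (α : ZMod n) + (β : ZMod n) * s := by
    intro α β b1 b2 b3 b4 h0
    refine hf.fc (1 - p - α) (-β) (by omega) (by omega) (by omega) (by omega) ?_
    push_cast
    rw [hxp] at h0
    linear_combination -h0
  rcases T with T | T | T | T | T | T
  · exact F 2 0 (by norm_num) (by norm_num) (by norm_num) (by norm_num)
      (by push_cast; linear_combination T)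
  · exact F (-2) 0 (by norm_num) (by norm_num) (by norm_num) (by norm_num)
      (by push_cast; linear_combination T)
  · exact F 1 1 (by norm_num) (by norm_num) (by norm_num) (by norm_num)
      (by push_cast; linear_combination T)
  · exact F (-1) (-1) (by norm_num) (by norm_num) (by norm_num) (by norm_num)
      (by push_cast; linear_combination T)
  · exact F (-1) 1 (by norm_num) (by norm_num) (by norm_num) (by norm_num)
      (by push_cast; linear_combination T)
  · exact F 1 (-1) (by norm_num) (by norm_num) (by norm_num) (by norm_num)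
      (by push_cast; linear_combination T)

/-- lengths -/
theorem len_no (h : Dbl n G e s) {A B : List (ZMod n)} {v : G} (hA : A.Nodup) (hB : B.Nodup)
    (hA5 : A.length ≤ 5) (hB5 : B.length ≤ 5) (h1 : v = vl e A) (h2 : v = vl e B)
    (hne : A.length ≠ B.length) : False :=
  hne (h.mem hA hB hA5 hB5 (h1.symm.trans h2)).1

theorem unit_ne_zero (hn : 7 ≤ n) (hu : IsUnit s) : s ≠ 0 := by
  rintro rfl
  have h := nat_ne hn (m := 1) (by omega) (by omega)
  rw [isUnit_zero_iff] at hu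
  exact h (by push_cast; exact hu.symm)

theorem cls : StCls := by
  intro n _ hn G _ e s h hu s1 s2 c d l hcd hd1 hd2 hl a b t m hab htm heq
  have h1 : (1 : ZMod n) ≠ 0 := by
    have := nat_ne hn (m := 1) (by omega) (by omega)
    exact_mod_cast this
  have h2 : (2 : ZMod n) ≠ 0 := by
    have := nat_ne hn (m := 2) (by omega) (by omega)
    exact_mod_cast this
  have h3 : (3 : ZMod n) ≠ 0 := by
    have := nat_ne hn (m := 3) (by omega) (by omega)
    exact_mod_cast this
  have h5 : (5 : ZMod n) ≠ 0 := by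
    have := nat_ne hn (m := 5) (by omega) (by omega)
    exact_mod_cast this
  have s0 : s ≠ 0 := unit_ne_zero hn hu
  have hf := farU_of hl
  have L := shapeL h s0 s1 s2 h1 h2 h5 d t m htm
  have R := shapeR h s0 s1 s2 h1 (farK_of hl) hab
  rcases L with hA | ⟨y, hA, eA⟩ | ⟨y, hA, eA⟩ | ⟨q, hA, eA⟩ | hA
  · have eA : e d + (e t + e (t + 1)) + (e m + e (m + 1)) = vl e [d, t, t + 1, m, m + 1] := by
      simp only [vl_cons, vl_nil, add_zero]
      abel
    rcases R with hB | ⟨z, _, hB, eB⟩ | ⟨z, _, hB, eB⟩ | ⟨z, _, hB, eB⟩ | ⟨hB, eB⟩ | ⟨hB, eB⟩ |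
      ⟨hB, eB⟩ | ⟨hB, eB⟩ | ⟨hB, eB⟩ | ⟨hB, eB⟩ | ⟨hB, eB⟩ | ⟨hB, eB⟩
    · have eB : e (c + 1) + (e l + e (l + 1)) + (e a + e b) = vl e [c + 1, l, l + 1, a, b] := by
        simp only [vl_cons, vl_nil, add_zero]
        abel
      obtain ⟨_, hAB, hBA⟩ := h.mem hA hB (by simp) (by simp) (by rw [← eA, ← eB, heq])
      rcases cls_55 h1 h2 hf hd1 hA hB hAB hBA with h0 | h0
      · exact Or.inl h0
      · exact Or.inr (Or.inl h0)
    all_goals exact (len_no h hA hB (by simp) (by simp) (heq.symm.trans eA) eB (by simp)).elim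
  · rcases R with hB | ⟨z, hz, hB, eB⟩ | ⟨z, hz, hB, eB⟩ | ⟨z, hz, hB, eB⟩ | ⟨hB, eB⟩ | ⟨hB, eB⟩ |
      ⟨hB, eB⟩ | ⟨hB, eB⟩ | ⟨hB, eB⟩ | ⟨hB, eB⟩ | ⟨hB, eB⟩ | ⟨hB, eB⟩
    · have eB : e (c + 1) + (e l + e (l + 1)) + (e a + e b) = vl e [c + 1, l, l + 1, a, b] := by
        simp only [vl_cons, vl_nil, add_zero]
        abel
      exact (len_no h hA hB (by simp) (by simp) (heq.symm.trans eA) eB (by simp)).elim
    · obtain ⟨_, hAB, hBA⟩ := h.mem hA hB (by simp) (by simp) (by rw [← eA, ← eB, heq])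
      rcases cls_4a_k h1 h2 hf hd1 (Or.inl rfl) hBA with h0 | h0
      · exact Or.inr (Or.inr (Or.inl h0))
      · exact Or.inr (Or.inr (Or.inr (Or.inl h0)))
    · obtain ⟨_, hAB, hBA⟩ := h.mem hA hB (by simp) (by simp) (by rw [← eA, ← eB, heq])
      exact Or.inr (Or.inr (Or.inr (Or.inr (Or.inl
        (cls_4a_l h1 s0 hf (Or.inl rfl) hB hBA)))))
    · obtain ⟨_, hAB, hBA⟩ := h.mem hA hB (by simp) (by simp) (by rw [← eA, ← eB, heq])
      obtain ⟨k1, k2, k3⟩ := cls_4a_l' h1 s0 hf (Or.inl rfl) hcd hB hBA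
      exact Or.inr (Or.inr (Or.inr (Or.inr (Or.inr ⟨k1, k2, l + 1, z, hz, rfl, k3⟩))))
    all_goals exact (len_no h hA hB (by simp) (by simp) (heq.symm.trans eA) eB (by simp)).elim
  · rcases R with hB | ⟨z, hz, hB, eB⟩ | ⟨z, hz, hB, eB⟩ | ⟨z, hz, hB, eB⟩ | ⟨hB, eB⟩ | ⟨hB, eB⟩ |
      ⟨hB, eB⟩ | ⟨hB, eB⟩ | ⟨hB, eB⟩ | ⟨hB, eB⟩ | ⟨hB, eB⟩ | ⟨hB, eB⟩
    · have eB : e (c + 1) + (e l + e (l + 1)) + (e a + e b) = vl e [c + 1, l, l + 1, a, b] := by
        simp only [vl_cons, vl_nil, add_zero]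
        abel
      exact (len_no h hA hB (by simp) (by simp) (heq.symm.trans eA) eB (by simp)).elim
    · obtain ⟨_, hAB, hBA⟩ := h.mem hA hB (by simp) (by simp) (by rw [← eA, ← eB, heq])
      rcases cls_4a_k h1 h2 hf hd1 (Or.inr rfl) hBA with h0 | h0
      · exact Or.inr (Or.inr (Or.inl h0))
      · exact Or.inr (Or.inr (Or.inr (Or.inl h0)))
    · obtain ⟨_, hAB, hBA⟩ := h.mem hA hB (by simp) (by simp) (by rw [← eA, ← eB, heq])
      exact Or.inr (Or.inr (Or.inr (Or.inr (Or.inl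
        (cls_4a_l h1 s0 hf (Or.inr rfl) hB hBA)))))
    · obtain ⟨_, hAB, hBA⟩ := h.mem hA hB (by simp) (by simp) (by rw [← eA, ← eB, heq])
      obtain ⟨k1, k2, k3⟩ := cls_4a_l' h1 s0 hf (Or.inr rfl) hcd hB hBA
      exact Or.inr (Or.inr (Or.inr (Or.inr (Or.inr ⟨k1, k2, l + 1, z, hz, rfl, k3⟩))))
    all_goals exact (len_no h hA hB (by simp) (by simp) (heq.symm.trans eA) eB (by simp)).elim
  · rcases R with hB | ⟨z, hz, hB, eB⟩ | ⟨z, hz, hB, eB⟩ | ⟨z, hz, hB, eB⟩ | ⟨hB, eB⟩ | ⟨hB, eB⟩ |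
      ⟨hB, eB⟩ | ⟨hB, eB⟩ | ⟨hB, eB⟩ | ⟨hB, eB⟩ | ⟨hB, eB⟩ | ⟨hB, eB⟩
    · have eB : e (c + 1) + (e l + e (l + 1)) + (e a + e b) = vl e [c + 1, l, l + 1, a, b] := by
        simp only [vl_cons, vl_nil, add_zero]
        abel
      exact (len_no h hA hB (by simp) (by simp) (heq.symm.trans eA) eB (by simp)).elim
    · obtain ⟨_, hAB, hBA⟩ := h.mem hA hB (by simp) (by simp) (by rw [← eA, ← eB, heq])
      exact Or.inr (Or.inr (Or.inr (Or.inr (Or.inl (cls_4c_k h1 h3 s0 hf hd2 hBA)))))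
    · obtain ⟨_, hAB, hBA⟩ := h.mem hA hB (by simp) (by simp) (by rw [← eA, ← eB, heq])
      exact (cls_4c hf hd1 (Or.inl rfl) (hBA _ (by simp)) (hBA _ (by simp))).elim
    · obtain ⟨_, hAB, hBA⟩ := h.mem hA hB (by simp) (by simp) (by rw [← eA, ← eB, heq])
      exact (cls_4c hf hd1 (Or.inr rfl) (hBA _ (by simp)) (hBA _ (by simp))).elim
    all_goals exact (len_no h hA hB (by simp) (by simp) (heq.symm.trans eA) eB (by simp)).elim
  · exfalso
    rcases R with hB | ⟨z, hz, hB, eB⟩ | ⟨z, hz, hB, eB⟩ | ⟨z, hz, hB, eB⟩ | ⟨hB, eB⟩ | ⟨hB, eB⟩ |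
      ⟨hB, eB⟩ | ⟨hB, eB⟩ | ⟨hB, eB⟩ | ⟨hB, eB⟩ | ⟨hB, eB⟩ | ⟨hB, eB⟩
    · have eB : e (c + 1) + (e l + e (l + 1)) + (e a + e b) = vl e [c + 1, l, l + 1, a, b] := by
        simp only [vl_cons, vl_nil, add_zero]
        abel
      exact smallL_no h hl hA l (Or.inl rfl) _ hB (by simp) (heq.trans eB) (by simp)
    · exact smallL_no h hl hA l (Or.inl rfl) _ hB (by simp) (heq.trans eB) (by simp)
    · exact smallL_no h hl hA (l + 1) (Or.inr (Or.inl rfl)) _ hB (by simp) (heq.trans eB) (by simp)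
    · exact smallL_no h hl hA l (Or.inl rfl) _ hB (by simp) (heq.trans eB) (by simp)
    · exact smallL_no h hl hA l (Or.inl rfl) _ hB (by simp) (heq.trans eB) (by simp)
    · exact smallL_no h hl hA (l + 1) (Or.inr (Or.inl rfl)) _ hB (by simp) (heq.trans eB) (by simp)
    · exact smallL_no h hl hA (l + 1 + s) (Or.inr (Or.inr (Or.inr rfl))) _ hB (by simp)
        (heq.trans eB) (by simp)
    · exact smallL_no h hl hA l (Or.inl rfl) _ hB (by simp) (heq.trans eB) (by simp)
    · exact smallL_no h hl hA (l + s) (Or.inr (Or.inr (Or.inl rfl))) _ hB (by simp)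
        (heq.trans eB) (by simp)
    · exact smallL_no h hl hA (l + 1) (Or.inr (Or.inl rfl)) _ hB (by simp) (heq.trans eB) (by simp)
    · exact smallL_no h hl hA l (Or.inl rfl) _ hB (by simp) (heq.trans eB) (by simp)
    · exact smallL_no h hl hA (l + s) (Or.inr (Or.inr (Or.inl rfl))) _ hB (by simp)
        (heq.trans eB) (by simp)

end Pool.Agent.Lib.MP_eacabd_co.Uni8
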