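import Mathlib
import Pool.Agent.Lib.MP_eacabd_co.Uni8.ClsA

/-!
Uniform switching theorem, module CLU: the shorter equation of exponents.
-/

set_option autoImplicit false

namespace Pool.Agent.Lib.MP_eacabd_co.Uni8

variable {n : ℕ} {G : Type} [AddCommGroup G] {e : ZMod n → G} {s : ZMod n}

/-- normal forms of the three terms -/
def Shape3 (e : ZMod n → G) (s d t : ZMod n) : Prop :=
    ([d, t, t + 1].Nodup ∧ e d + (e t + e (t + 1)) = vl e [d, t, t + 1]) ∨
    ([d + s, d + 1].Nodup ∧ e d + (e t + e (t + 1)) = vl e [d + s, d + 1]) ∨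
    ([d + s, d - 1].Nodup ∧ e d + (e t + e (t + 1)) = vl e [d + s, d - 1])

theorem shape3 (h : Dbl n G e s) (s1 : s ≠ 1) (s2 : s ≠ -1) (h1 : (1 : ZMod n) ≠ 0)
    (d t : ZMod n) : Shape3 e s d t := by
  unfold Shape3
  by_cases c1 : d = t
  · subst c1
    right; left
    refine ⟨?_, ?_⟩
    · simp only [List.nodup_cons, List.mem_cons, List.not_mem_nil, or_false, not_false_eq_true,
        List.nodup_nil, and_true]
      exact fun h0 => s1 (by linear_combination h0)
    · simp only [vl_cons, vl_nil, add_zero]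
      rw [h.dbl d]
      abel
  by_cases c2 : d = t + 1
  · obtain rfl : t = d - 1 := by rw [c2]; ring
    right; right
    refine ⟨?_, ?_⟩
    · simp only [List.nodup_cons, List.mem_cons, List.not_mem_nil, or_false, not_false_eq_true,
        List.nodup_nil, and_true]
      exact fun h0 => s2 (by linear_combination h0)
    · simp only [vl_cons, vl_nil, add_zero]
      have a1 : d - 1 + 1 = d := by ring
      rw [a1, h.dbl d]
      abel
  left
  refine ⟨?_, ?_⟩
  · have q1 : t ≠ t + 1 := fun h0 => h1 (by linear_combination -h0)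
    simp only [List.nodup_cons, List.mem_cons, List.not_mem_nil, or_false, not_false_eq_true,
      List.nodup_nil, and_true, not_or]
    exact ⟨⟨c1, c2⟩, q1⟩
  · simp only [vl_cons, vl_nil, add_zero]

theorem clu : StClu := by
  intro n _ hn G _ e s h hu s1 s2 c d l hcd hd1 hc1 hbad a b t hab heq
  have h1 : (1 : ZMod n) ≠ 0 := by
    have := nat_ne hn (m := 1) (by norm_num) (by omega)
    simpa using this
  have : Nontrivial (ZMod n) := ⟨1, 0, h1⟩
  have s0 : s ≠ 0 := hu.ne_zero
  have far := fun α β (x1 : -6 ≤ α) (x2 : α ≤ 3) (x3 : -2 ≤ β) (x4 : β ≤ 2) =>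
    (bad_far hbad α β x1 x2 x3 x4).2
  have f1 := far 0 0 (by norm_num) (by norm_num) (by norm_num) (by norm_num)
  have f2 := far (-1) 0 (by norm_num) (by norm_num) (by norm_num) (by norm_num)
  have f3 := far 0 (-2) (by norm_num) (by norm_num) (by norm_num) (by norm_num)
  have f4 := far (-1) (-2) (by norm_num) (by norm_num) (by norm_num) (by norm_num)
  have f5 := far 0 (-1) (by norm_num) (by norm_num) (by norm_num) (by norm_num)
  have f6 := far (-1) (-1) (by norm_num) (by norm_num) (by norm_num) (by norm_num)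
  have f7 := far (-2) (-1) (by norm_num) (by norm_num) (by norm_num) (by norm_num)
  have f8 := far 1 (-1) (by norm_num) (by norm_num) (by norm_num) (by norm_num)
  push_cast at f1 f2 f3 f4 f5 f6 f7 f8
  have e0 : e (c + 1) + (e l + e (l + 1)) + (e a + e b) = e d + (e t + e (t + 1)) := heq.symm
  have hR := shapeR h s0 s1 s2 h1 (farK_of hbad) hab
  have key : ∀ R : List (ZMod n), R.Nodup → R.length ≤ 5 →
      e (c + 1) + (e l + e (l + 1)) + (e a + e b) = vl e R →
      ([d, t, t + 1].Nodup ∧ R.length = 3 ∧ d ∈ R ∧ t ∈ R ∧ t + 1 ∈ R) ∨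
      (R.length = 2 ∧ ∀ x ∈ R, x = d + s ∨ x = d + 1 ∨ x = d - 1) := by
    intro R hR hR5 hv
    rcases shape3 h s1 s2 h1 d t with ⟨hn3, hv3⟩ | ⟨hn3, hv3⟩ | ⟨hn3, hv3⟩
    · have := h.mem hn3 hR (by simp) hR5 (by rw [← hv3, ← hv, ← e0])
      refine Or.inl ⟨hn3, this.1.symm, this.2.1 _ (by simp), this.2.1 _ (by simp),
        this.2.1 _ (by simp)⟩
    · have := h.mem hn3 hR (by simp) hR5 (by rw [← hv3, ← hv, ← e0])
      refine Or.inr ⟨this.1.symm, fun x hx => ?_⟩
      have := this.2.2 x hx
      simp only [List.mem_cons, List.not_mem_nil, or_false] at this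
      tauto
    · have := h.mem hn3 hR (by simp) hR5 (by rw [← hv3, ← hv, ← e0])
      refine Or.inr ⟨this.1.symm, fun x hx => ?_⟩
      have := this.2.2 x hx
      simp only [List.mem_cons, List.not_mem_nil, or_false] at this
      tauto
  have three : ∀ x y z : ZMod n, [x, y, z].Nodup →
      e (c + 1) + (e l + e (l + 1)) + (e a + e b) = vl e [x, y, z] →
      (d ≠ t ∧ d ≠ t + 1) ∧ (d = x ∨ d = y ∨ d = z) ∧ (t = x ∨ t = y ∨ t = z) ∧
        (t + 1 = x ∨ t + 1 = y ∨ t + 1 = z) := by
    intro x y z hx hv
    rcases key [x, y, z] hx (by simp) hv with ⟨k1, -, k3, k4, k5⟩ | ⟨k1, -⟩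
    · simp only [List.mem_cons, List.not_mem_nil, or_false] at k3 k4 k5
      simp only [List.nodup_cons, List.mem_cons, List.not_mem_nil, or_false, not_false_eq_true,
        List.nodup_nil, and_true, not_or] at k1
      exact ⟨k1.1, k3, k4, k5⟩
    · simp at k1
  have two : ∀ x y : ZMod n, [x, y].Nodup →
      e (c + 1) + (e l + e (l + 1)) + (e a + e b) = vl e [x, y] →
      (y = d + s ∨ y = d + 1 ∨ y = d - 1) := by
    intro x y hx hv
    rcases key [x, y] hx (by simp) hv with ⟨-, k1, -⟩ | ⟨-, k1⟩
    · simp at k1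
    · exact k1 y (by simp)
  rcases hR with hR | ⟨z, -, hR, hv⟩ | ⟨z, -, hR, hv⟩ | ⟨z, -, hR, hv⟩ | ⟨hR, hv⟩ | ⟨hR, hv⟩ |
    ⟨hR, hv⟩ | ⟨hR, hv⟩ | ⟨hR, hv⟩ | ⟨hR, hv⟩ | ⟨hR, hv⟩ | ⟨hR, hv⟩
  · exfalso
    rcases key _ hR (by simp) (by simp only [vl_cons, vl_nil, add_zero]; abel) with
      ⟨-, k1, -⟩ | ⟨k1, -⟩ <;> simp at k1
  · exfalso
    rcases key _ hR (by simp) hv with ⟨-, k1, -⟩ | ⟨k1, -⟩ <;> simp at k1
  · exfalso
    rcases key _ hR (by simp) hv with ⟨-, k1, -⟩ | ⟨k1, -⟩ <;> simp at k1
  · exfalso
    rcases key _ hR (by simp) hv with ⟨-, k1, -⟩ | ⟨k1, -⟩ <;> simp at k1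
  · obtain ⟨-, k2, -, -⟩ := three _ _ _ hR hv
    left
    rcases k2 with k | k | k
    · rw [k]; ring
    · exact absurd (by linear_combination -k) f1
    · exact absurd (by linear_combination -k) f2
  · exfalso
    obtain ⟨-, k2, -, -⟩ := three _ _ _ hR hv
    rcases k2 with k | k | k
    · exact hd1 k
    · exact f2 (by linear_combination -k)
    · exact f3 (by linear_combination -k)
  · exfalso
    rcases two _ _ hR hv with k | k | k
    · exact f2 (by linear_combination k)
    · exact f5 (by linear_combination k)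
    · exact f7 (by linear_combination k)
  · exfalso
    obtain ⟨-, k2, -, -⟩ := three _ _ _ hR hv
    rcases k2 with k | k | k
    · exact hd1 k
    · exact f1 (by linear_combination -k)
    · exact f4 (by linear_combination -k)
  · exfalso
    rcases two _ _ hR hv with k | k | k
    · exact f1 (by linear_combination k)
    · exact f8 (by linear_combination k)
    · exact f6 (by linear_combination k)
  · obtain ⟨⟨k0, k1⟩, k2, k3, k4⟩ := three _ _ _ hR hv
    right
    rcases k2 with k | k | k
    · rcases k3 with k3 | k3 | k3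
      · exact absurd (k.trans k3.symm) k0
      · rcases k4 with k4 | k4 | k4
        · exact absurd (k.trans k4.symm) k1
        · exact absurd (by linear_combination k4 - k3) h1
        · exact absurd (by linear_combination k4 - k3) s0
      · rcases k4 with k4 | k4 | k4
        · exact absurd (k.trans k4.symm) k1
        · linear_combination k3 - k4
        · exact absurd (by linear_combination k4 - k3) h1
    · exact absurd (by linear_combination -k) f5
    · exact absurd (by linear_combination -k) f2
  · exfalso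
    obtain ⟨⟨k0, k1⟩, k2, k3, k4⟩ := three _ _ _ hR hv
    rcases k2 with k | k | k
    · rcases k3 with k3 | k3 | k3
      · exact k0 (k.trans k3.symm)
      · rcases k4 with k4 | k4 | k4
        · exact k1 (k.trans k4.symm)
        · exact h1 (by linear_combination k4 - k3)
        · exact s0 (by linear_combination k3 - k4)
      · rcases k4 with k4 | k4 | k4
        · exact k1 (k.trans k4.symm)
        · exact hc1 (by linear_combination -k - (k4 - k3))
        · exact h1 (by linear_combination k4 - k3)
    · exact f1 (by linear_combination -k)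
    · exact f6 (by linear_combination -k)
  · exfalso
    obtain ⟨-, k2, -, -⟩ := three _ _ _ hR hv
    rcases k2 with k | k | k
    · exact hd1 k
    · exact f5 (by linear_combination -k)
    · exact f6 (by linear_combination -k)

end Pool.Agent.Lib.MP_eacabd_co.Uni8
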