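import Pool.Agent.Lib.MP_eacabd_co.Uni8.StmtsU
import Pool.Agent.Lib.MP_eacabd_co.Gold8.StepC

/-!
Uniform switching of the Gold functions, module DBL (helper96).
-/

set_option autoImplicit false

namespace Pool.Agent.Lib.MP_eacabd_co.Uni8

open Finset Pool.Agent.Lib.MP_eacabd_co Pool.Agent.Lib.MP_eacabd_co.Gold8
open Pool.Agent.Lib.MP_eacabd_co.Wide8

namespace Dbl96

/-- a sum of at most five different powers of two -/
theorem sum_lt {n : ℕ} (hn : 7 ≤ n) {S : Finset ℕ} (hS : S ⊆ range n) (hc : S.card ≤ 5) :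
    ∑ k ∈ S, 2 ^ k < 2 ^ n - 1 := by
  have h1 : ∃ k ∈ range n, k ∉ S := by
    by_contra hcon
    push Not at hcon
    have h2 : range n ⊆ S := hcon
    have h3 := card_le_card h2
    rw [card_range] at h3
    omega
  obtain ⟨k, hk, hkS⟩ := h1
  have h2 : ∑ j ∈ insert k S, 2 ^ j ≤ ∑ j ∈ range n, 2 ^ j :=
    sum_le_sum_of_subset (insert_subset hk hS)
  rw [sum_insert hkS, Nat.geomSum_eq le_rfl] at h2
  have h3 : 0 < 2 ^ k := by positivity
  have h4 : (2 ^ n - 1) / (2 - 1) = 2 ^ n - 1 := by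
    rw [show (2 : ℕ) - 1 = 1 from rfl, Nat.div_one]
  rw [h4] at h2
  omega

theorem inj {i n : ℕ} [NeZero n] (hc : Nat.Coprime i n) :
    Function.Injective (fun j : ZMod n => ((i : ZMod n) * j).val) := by
  intro a b h
  have h1 : (i : ZMod n) * a = (i : ZMod n) * b := ZMod.val_injective n h
  exact ((ZMod.isUnit_iff_coprime i n).2 hc).mul_left_cancel h1

theorem list {i n : ℕ} [NeZero n] (hc : Nat.Coprime i n) (A : List (ZMod n))
    (hA : A.Nodup) (hl : A.length ≤ 5) :
    (A.map fun j : ZMod n => ((i : ZMod n) * j).val).toFinset ⊆ range n ∧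
    (A.map fun j : ZMod n => ((i : ZMod n) * j).val).toFinset.card ≤ 5 ∧
    (A.map fun j : ZMod n => pw ((i : ZMod n) * j)).sum =
      ((∑ k ∈ (A.map fun j : ZMod n => ((i : ZMod n) * j).val).toFinset, 2 ^ k : ℕ) : R n) := by
  have hnd : (A.map fun j : ZMod n => ((i : ZMod n) * j).val).Nodup := hA.map (inj hc)
  refine ⟨?_, ?_, ?_⟩
  · intro k hk
    rw [List.mem_toFinset, List.mem_map] at hk
    obtain ⟨j, -, rfl⟩ := hk
    exact mem_range.2 (ZMod.val_lt _)
  · refine (List.toFinset_card_le _).trans ?_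
    rw [List.length_map]
    exact hl
  · rw [List.sum_toFinset _ hnd, List.map_map, Nat.cast_list_sum, List.map_map]
    congr 1
    apply List.map_congr_left
    intro j _
    simp only [Function.comp_apply]
    exact pw_cast _

end Dbl96

/-- (DBL) -/
theorem dbl_pf : StDbl := by
  intro i n _ hn hc
  refine ⟨?_, ?_⟩
  · intro j
    show pw ((i : ZMod n) * (j + sh n i)) = pw ((i : ZMod n) * j) + pw ((i : ZMod n) * j)
    rw [mul_add, sh_mul hc, pw_add, pw_one]
    ring
  · intro A B hA hB lA lB h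
    obtain ⟨a1, a2, a3⟩ := Dbl96.list hc A hA lA
    obtain ⟨b1, b2, b3⟩ := Dbl96.list hc B hB lB
    have h1 : (A.map fun j : ZMod n => pw ((i : ZMod n) * j)).sum =
        (B.map fun j : ZMod n => pw ((i : ZMod n) * j)).sum := h
    rw [a3, b3, ZMod.natCast_eq_natCast_iff', Nat.mod_eq_of_lt (Dbl96.sum_lt hn a1 a2),
      Nat.mod_eq_of_lt (Dbl96.sum_lt hn b1 b2)] at h1
    have h2 := Finset.geomSum_injective (n := 2) le_rfl h1
    rw [List.perm_ext_iff_of_nodup hA hB]
    intro j
    have h3 : ∀ C : List (ZMod n), j ∈ C ↔ ((i : ZMod n) * j).val ∈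
        (C.map fun j : ZMod n => ((i : ZMod n) * j).val).toFinset := by
      intro C
      rw [List.mem_toFinset]
      exact (List.mem_map_of_injective (Dbl96.inj hc)).symm
    rw [h3 A, h3 B, h2]

end Pool.Agent.Lib.MP_eacabd_co.Uni8
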