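import Mathlib
import Pool.Agent.Lib.MP_eacabd_co.Uni8.StmtsU
import Pool.Agent.Lib.MP_eacabd_co.Wide8.Final

/-!
Switching of the Gold functions in the wide sense, all exponents `i` at once: the theorems, from
the switching theorem for the vertical directions and the rigidity of the other directions.
-/

set_option autoImplicit false

namespace Pool.Agent.Lib.MP_eacabd_co.Uni8

open Pool.Agent.Lib.MP_eacabd_co Pool.Agent.Lib.MP_eacabd_co.Gold8
open Pool.Agent.Lib.MP_eacabd_co.Wide8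

/-- the Gold functions, `2 ≤ i ≤ n - 2` -/
theorem goldUni (hS : StSwitch) (hR : StRig) : ∀ i n : ℕ, 303 ≤ n → 2 ≤ i → i + 2 ≤ n →
    Nat.Coprime i n → ∀ (F : Type) [Field F] [Fintype F], Fintype.card F = 2 ^ n →
    ∀ G : F → F, Relation.ReflTransGen StepCCZ (fun x => x ^ (2 ^ i + 1)) G →
    CCZ G (fun x => x ^ (2 ^ i + 1)) ∧ ¬ PropN G := by
  intro i n hn hi hi2 hc F _ _ hF G hG
  have hn5 : 5 ≤ n := by omega
  have h : CCZ G (fun x => x ^ (2 ^ i + 1)) := by
    induction hG with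
    | refl => exact BrAux.ccz_refl _
    | tail _ h1 ih =>
      rcases h1 with h1 | ⟨h1, u, f, hf, h2⟩
      · exact BrAux.ccz_trans h1 ih
      · rcases bridge i n hn5 hc F hF (hR i n hn5 hc F hF) _ _ u f ih hf h2 h1 with
          h3 | ⟨w, k, hk, h4, h5⟩
        · exact h3
        · exact BrAux.ccz_trans h5 (BrAux.ccz_of_ea
            (hS i n hn hi hi2 hc F hF w _ k _ (EA.refl _) hk (fun x => rfl) h4))
  exact ⟨h, fun hN => hN.2 _ (quadratic_gold (by omega) hc hF (EA.refl _)) h⟩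

section Mod

variable {n : ℕ} {F : Type} [Field F] [Fintype F]

/-- the exponent `i` counts modulo `n` -/
theorem pow_two_mod (hF : Fintype.card F = 2 ^ n) (i : ℕ) (x : F) :
    x ^ (2 ^ i) = x ^ (2 ^ (i % n)) := by
  have h : ∀ k : ℕ, x ^ (2 ^ (n * k)) = x := by
    intro k
    rw [pow_mul, ← hF]
    exact FiniteField.pow_card_pow k x
  have h1 : i = n * (i / n) + i % n := (Nat.div_add_mod i n).symm
  calc x ^ (2 ^ i) = x ^ (2 ^ (n * (i / n) + i % n)) := by rw [← h1]
    _ = x ^ (2 ^ (i % n)) := by rw [pow_add, pow_mul, h]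

theorem gold_mod (hF : Fintype.card F = 2 ^ n) (i : ℕ) :
    (fun x : F => x ^ (2 ^ i + 1)) = fun x => x ^ (2 ^ (i % n) + 1) :=
  funext fun x => by rw [pow_succ, pow_succ, pow_two_mod hF i x]

theorem coprime_mod {i : ℕ} (hc : Nat.Coprime i n) : Nat.Coprime (i % n) n := by
  have h := Nat.gcd_rec n i
  rw [Nat.gcd_comm] at h
  exact h.symm.trans hc

/-- the Gold function with `i = n - 1` is equivalent to the cube -/
theorem gold_last (hn : 1 ≤ n) (hF : Fintype.card F = 2 ^ n) :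
    CCZ (fun x : F => x ^ (2 ^ (n - 1) + 1)) (fun x => x ^ 3) := by
  have hchar : CharP F 2 := charP_of_card_eq_prime_pow (p := 2) (f := n) (by simpa using hF)
  let A : F ≃+ F := AddEquiv.ofBijective (iterateFrobenius F 2 (n - 1)).toAddMonoidHom
    (Finite.injective_iff_bijective.1 (iterateFrobenius F 2 (n - 1)).injective)
  have hA : ∀ x, A x = x ^ (2 ^ (n - 1)) := fun x => iterateFrobenius_def 2 (n - 1) x
  refine BrAux.ccz_of_ea ⟨A, AddEquiv.refl F, 0, 0, 0, fun x => ?_⟩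
  have h2 : 2 ^ (n - 1) * 2 = 2 ^ n := by
    rw [← pow_succ]
    congr 1
    omega
  have h3 : x ^ (2 ^ n) = x := by
    rw [← hF]
    exact FiniteField.pow_card x
  have h4 : (x ^ 3) ^ (2 ^ (n - 1)) = x ^ (2 ^ (n - 1) + 1) := by
    calc (x ^ 3) ^ (2 ^ (n - 1)) = x ^ (2 ^ (n - 1) * 2) * x ^ (2 ^ (n - 1)) := by
          rw [← pow_mul, ← pow_add]
          congr 1
          ring
      _ = x ^ (2 ^ (n - 1) + 1) := by rw [h2, h3, pow_succ, mul_comm]
  show x ^ (2 ^ (n - 1) + 1) = A ((AddEquiv.refl F x + 0) ^ 3) + (0 : F →+ F) x + 0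
  rw [hA]
  simp [h4]

end Mod

/-- the Gold functions, `i` not `1` and not `-1` modulo `n` -/
theorem goldUniMod (hS : StSwitch) (hR : StRig) : ∀ i n : ℕ, 303 ≤ n → Nat.Coprime i n →
    i % n ≠ 1 → i % n ≠ n - 1 → ∀ (F : Type) [Field F] [Fintype F], Fintype.card F = 2 ^ n →
    ∀ G : F → F, Relation.ReflTransGen StepCCZ (fun x => x ^ (2 ^ i + 1)) G →
    CCZ G (fun x => x ^ (2 ^ i + 1)) ∧ ¬ PropN G := by
  intro i n hn hc h1 h2 F _ _ hF G hG
  have hc' := coprime_mod hc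
  have h0 : i % n ≠ 0 := by
    intro h
    rw [h, Nat.coprime_zero_left] at hc'
    omega
  have hlt : i % n < n := Nat.mod_lt _ (by omega)
  rw [gold_mod hF i] at hG ⊢
  exact goldUni hS hR (i % n) n hn (by omega) (by omega) hc' F hF G hG

/-- the class of the Gold function with `i = 1` or `i = -1` modulo `n` is the class of the cube -/
theorem gold_cube {i n : ℕ} (hn : 2 ≤ n) (hi : i % n = 1 ∨ i % n = n - 1) {F : Type} [Field F]
    [Fintype F] (hF : Fintype.card F = 2 ^ n) :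
    CCZ (fun x : F => x ^ (2 ^ i + 1)) (fun x => x ^ 3) := by
  rw [gold_mod hF i]
  rcases hi with h | h
  · rw [h]
    exact BrAux.ccz_refl _
  · rw [h]
    exact gold_last (by omega) hF

theorem one_step {F : Type} [Field F] {P G₀ f G : F → F} {u : F} (h : CCZ G₀ P)
    (hf : ∀ x, f x = 0 ∨ f x = 1) (hG : ∀ x, G x = G₀ x + u * f x) (hapn : IsAPN G) :
    Relation.ReflTransGen StepCCZ P G := by
  have h1 : StepCCZ P G₀ := Or.inl h
  have h2 : StepCCZ G₀ G := Or.inr ⟨hapn, u, f, hf, hG⟩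
  exact (Relation.ReflTransGen.single h1).tail h2

/-- all the Gold functions, large dimension: one change of a coordinate function -/
theorem goldAll (hS : StSwitch) (hR : StRig) : ∀ i n : ℕ, 610 ≤ n → Nat.Coprime i n →
    ∀ (F : Type) [Field F] [Fintype F], Fintype.card F = 2 ^ n →
    ∀ (u : F) (G₀ f G : F → F), CCZ G₀ (fun x => x ^ (2 ^ i + 1)) → (∀ x, f x = 0 ∨ f x = 1) →
    (∀ x, G x = G₀ x + u * f x) → IsAPN G →
    CCZ G (fun x => x ^ (2 ^ i + 1)) ∨ ((i % n = 1 ∨ i % n = n - 1) ∧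
      ∃ a : F, a ≠ 0 ∧ CCZ G (fun x => x ^ 3 + a⁻¹ * Tr n (a ^ 3 * x ^ 9))) := by
  intro i n hn hc F _ _ hF u G₀ f G hG₀ hf hG hapn
  by_cases hi : i % n = 1 ∨ i % n = n - 1
  · have h3 := gold_cube (by omega) hi hF
    rcases cubeClassCCZ hR n hn F hF u G₀ f G (BrAux.ccz_trans hG₀ h3) hf hG hapn with h4 | h4
    · exact Or.inl (BrAux.ccz_trans h4 (BrAux.ccz_symm h3))
    · exact Or.inr ⟨hi, h4⟩
  · left
    rw [not_or] at hi
    exact (goldUniMod hS hR i n (by omega) hc hi.1 hi.2 F hF G (one_step hG₀ hf hG hapn)).1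

/-- all the Gold functions: one change of a coordinate function leads to quadratic functions -/
theorem goldQuad (hS : StSwitch) (hR : StRig) : ∀ i n : ℕ, 303 ≤ n → Nat.Coprime i n →
    ∀ (F : Type) [Field F] [Fintype F], Fintype.card F = 2 ^ n →
    ∀ (u : F) (G₀ f G : F → F), CCZ G₀ (fun x => x ^ (2 ^ i + 1)) → (∀ x, f x = 0 ∨ f x = 1) →
    (∀ x, G x = G₀ x + u * f x) → IsAPN G →
    (∃ Q : F → F, IsQuadratic Q ∧ CCZ G Q) ∧ ¬ PropN G := by
  intro i n hn hc F _ _ hF u G₀ f G hG₀ hf hG hapn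
  by_cases hi : i % n = 1 ∨ i % n = n - 1
  · have h3 := gold_cube (by omega) hi hF
    exact cubeCCZ hR n (by omega) F hF u G₀ f G (BrAux.ccz_trans hG₀ h3) hf hG hapn
  · rw [not_or] at hi
    have h := goldUniMod hS hR i n (by omega) hc hi.1 hi.2 F hF G (one_step hG₀ hf hG hapn)
    exact ⟨⟨_, quadratic_gold (by omega) hc hF (EA.refl _), h.1⟩, h.2⟩

end Pool.Agent.Lib.MP_eacabd_co.Uni8
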