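import Pool.Agent.Lib.MP_eacabd_co.Uni8.StmtsU

/-!
UG, module GZ: all the coefficients of pairs which are not adjacent vanish (from `StKillC`; helper7).
-/

set_option autoImplicit false

namespace Pool.Agent.Lib.MP_eacabd_co.Uni8

open Finset Pool.Agent.Lib.MP_eacabd_co Pool.Agent.Lib.MP_eacabd_co.Gold8
open Pool.Agent.Lib.MP_eacabd_co.Wide8

namespace GZ7

variable {n : ℕ} [NeZero n]

omit [NeZero n] in
theorem small (k : ℕ) (h0 : k ≠ 0) (hk : k < n) : (k : ZMod n) ≠ 0 := by
  intro h
  rw [ZMod.natCast_eq_zero_iff] at h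
  exact h0 (Nat.eq_zero_of_dvd_of_lt h hk)

theorem val_add {c d : ZMod n} (h : c ≠ d) : (d - c).val + (c - d).val = n := by
  have h1 : c - d ≠ 0 := sub_ne_zero.2 h
  have h2 : d - c = -(c - d) := by ring
  rw [h2, ZMod.neg_val, if_neg h1]
  have := ZMod.val_lt (c - d)
  omega

omit [NeZero n] in
theorem card_bad (s c d : ZMod n) : (Bad s c d).card ≤ 100 := by
  have h : (Icc (-6 : ℤ) 3 ×ˢ Icc (-2 : ℤ) 2).card = 50 := by decide
  refine (Finset.card_union_le _ _).trans ?_
  have h1 := Finset.card_image_le (s := Icc (-6 : ℤ) 3 ×ˢ Icc (-2 : ℤ) 2)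
    (f := fun p => c + (p.1 : ZMod n) + (p.2 : ZMod n) * s)
  have h2 := Finset.card_image_le (s := Icc (-6 : ℤ) 3 ×ˢ Icc (-2 : ℤ) 2)
    (f := fun p => d + (p.1 : ZMod n) + (p.2 : ZMod n) * s)
  rw [h] at h1 h2
  omega

/-- there is an allowed position on a long arc -/
theorem exists_l (s : ZMod n) {c d : ZMod n} (hcd : c ≠ d) (h : 100 < (c - d).val) :
    ∃ l : ZMod n, (d - c).val ≤ (l - c).val ∧ l ∉ Bad s c d := by
  by_contra hcon
  push Not at hcon
  have h1 : (univ.filter fun l : ZMod n => (d - c).val ≤ (l - c).val) ⊆ Bad s c d := by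
    intro l hl
    exact hcon l (mem_filter.1 hl).2
  have h2 := (Finset.card_le_card h1).trans (card_bad s c d)
  have h3 : (Finset.Ico (d - c).val n).card ≤
      (univ.filter fun l : ZMod n => (d - c).val ≤ (l - c).val).card := by
    refine Finset.card_le_card_of_injOn (fun k => c + (k : ZMod n)) ?_ ?_
    · intro k hk
      rw [Finset.mem_coe, Finset.mem_Ico] at hk
      simp only [Finset.coe_filter, Finset.mem_univ, true_and, Set.mem_ofPred_eq,
        add_sub_cancel_left]
      rw [ZMod.val_natCast_of_lt hk.2]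
      exact hk.1
    · intro k hk k' hk' hkk
      rw [Finset.mem_coe, Finset.mem_Ico] at hk hk'
      have h4 : ((k : ZMod n)).val = ((k' : ZMod n)).val := by
        have : (k : ZMod n) = k' := add_left_cancel hkk
        rw [this]
      rwa [ZMod.val_natCast_of_lt hk.2, ZMod.val_natCast_of_lt hk'.2] at h4
  rw [Nat.card_Ico] at h3
  have h4 := val_add hcd
  omega

/-- the exceptional differences -/
def E (s r : ZMod n) : Prop := r = s ∨ r = s + 2 ∨ r = 2 * s + 1

/-- pairs which are distinct and not adjacent -/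
def NA (c d : ZMod n) : Prop := c ≠ d ∧ d ≠ c + 1 ∧ c ≠ d + 1

omit [NeZero n] in
theorem NA.symm {c d : ZMod n} (h : NA c d) : NA d c := ⟨h.1.symm, h.2.2, h.2.1⟩

omit [NeZero n] in
theorem not_mem_bad {s c d l : ZMod n} (h : l ∉ Bad s c d) (k : ℤ) (h1 : -6 ≤ k) (h2 : k ≤ 3) :
    l ≠ d + (k : ZMod n) := by
  rintro rfl
  apply h
  unfold Bad
  rw [mem_union]
  right
  rw [mem_image]
  refine ⟨(k, 0), ?_, ?_⟩
  · rw [mem_product, mem_Icc, mem_Icc]
    exact ⟨⟨h1, h2⟩, by norm_num, by norm_num⟩
  · push_cast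
    ring

variable {F : Type} [Field F]

/-- the consequence of `StKillC` used here -/
def KC (s : ZMod n) (g : ZMod n → ZMod n → F) : Prop :=
  ∀ c d l : ZMod n, NA c d → (d - c).val ≤ (l - c).val → l ∉ Bad s c d → ¬ E s (d - c) →
    (s = -2 → (d = c + 2 ∨ d = c + 3) →
      g (l + 1) (d + 1) = 0 ∧ g (l + 1) (d - 1) = 0 ∧ g (l + 1) (d - 2) = 0) →
    g c d = 0

theorem kill1 {s : ZMod n} {g : ZMod n → ZMod n → F} (hK : KC s g) {c d : ZMod n} (h : NA c d)
    (hv : 100 < (c - d).val) (hE : ¬ E s (d - c)) (h2 : s = -2 → d ≠ c + 2 ∧ d ≠ c + 3) :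
    g c d = 0 := by
  obtain ⟨l, h3, h4⟩ := exists_l s h.1 hv
  refine hK c d l h h3 h4 hE ?_
  intro h5 h6
  rcases h6 with h6 | h6
  · exact absurd h6 (h2 h5).1
  · exact absurd h6 (h2 h5).2

/-- the case `s = -2` -/
theorem minus_two (hn : 303 ≤ n) {s : ZMod n} (hs : s = -2) {g : ZMod n → ZMod n → F}
    (hg : ∀ c d, g c d = g d c) (hK : KC s g) {c d : ZMod n} (h : NA c d) : g c d = 0 := by
  have hsm := @small n
  -- far pairs, short orientation
  have key : ∀ c d : ZMod n, NA c d → 2 * (d - c).val ≤ n → d ≠ c + 2 → d ≠ c + 3 →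
      g c d = 0 := by
    intro c d h h1 h2 h3
    have h4 := val_add h.1
    refine kill1 hK h (by omega) ?_ (fun _ => ⟨h2, h3⟩)
    have hval : ∀ k : ℕ, k < n → d - c = -(k : ZMod n) → k ≠ 0 → k < 4 → False := by
      intro k hk h5 h6 h7
      have h8 : c - d = (k : ZMod n) := by
        have : c - d = -(d - c) := by ring
        rw [this, h5, neg_neg]
      have h9 : (c - d).val = k := by rw [h8, ZMod.val_natCast_of_lt hk]
      omega
    rintro (h5 | h5 | h5)
    · exact hval 2 (by omega) (by rw [h5, hs]; push_cast; ring) (by norm_num) (by norm_num)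
    · apply h.1
      have : d - c = 0 := by rw [h5, hs]; ring
      exact (sub_eq_zero.1 this).symm
    · exact hval 3 (by omega) (by rw [h5, hs]; push_cast; ring) (by norm_num) (by norm_num)
  -- far pairs, both orientations
  have far : ∀ c d : ZMod n, (∀ k : ℤ, -3 ≤ k → k ≤ 3 → d ≠ c + (k : ZMod n)) → g c d = 0 := by
    intro c d h
    have e0 := h 0 (by norm_num) (by norm_num)
    have e1 := h 1 (by norm_num) (by norm_num)
    have e2 := h 2 (by norm_num) (by norm_num)
    have e3 := h 3 (by norm_num) (by norm_num)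
    have f1 := h (-1) (by norm_num) (by norm_num)
    have f2 := h (-2) (by norm_num) (by norm_num)
    have f3 := h (-3) (by norm_num) (by norm_num)
    push_cast at e0 e1 e2 e3 f1 f2 f3
    have hNA : NA c d := by
      refine ⟨fun hh => e0 (by rw [hh, add_zero]), e1, fun hh => f1 (by rw [hh]; ring)⟩
    have h4 := val_add hNA.1
    rcases Nat.lt_or_ge n (2 * (d - c).val) with h5 | h5
    · rw [hg]
      refine key d c hNA.symm (by omega) (fun hh => f2 (by rw [hh]; ring))
        (fun hh => f3 (by rw [hh]; ring))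
    · exact key c d hNA h5 e2 e3
  -- the pairs at distance two and three
  have near : ∀ c d : ZMod n, NA c d → (d = c + 2 ∨ d = c + 3) → g c d = 0 := by
    intro c d h h1
    have h2 : (d - c).val ≤ 3 := by
      rcases h1 with h1 | h1
      · have : d - c = ((2 : ℕ) : ZMod n) := by rw [h1]; push_cast; ring
        rw [this, ZMod.val_natCast_of_lt (by omega)]
        norm_num
      · have : d - c = ((3 : ℕ) : ZMod n) := by rw [h1]; push_cast; ring
        rw [this, ZMod.val_natCast_of_lt (by omega)]
    have h4 := val_add h.1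
    obtain ⟨l, h5, h6⟩ := exists_l s h.1 (by omega : 100 < (c - d).val)
    have hE : ¬ E s (d - c) := by
      have hd : ∀ k : ℕ, k ≠ 0 → k < n → (k : ZMod n) ≠ 0 := hsm
      rintro (h7 | h7 | h7)
      · rcases h1 with h1 | h1
        · refine hd 4 (by norm_num) (by omega) ?_
          have : (2 : ZMod n) = s := by rw [← h7, h1]; ring
          push_cast
          rw [hs] at this
          linear_combination this
        · refine hd 5 (by norm_num) (by omega) ?_
          have : (3 : ZMod n) = s := by rw [← h7, h1]; ring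
          push_cast
          rw [hs] at this
          linear_combination this
      · apply h.1
        have : d - c = 0 := by rw [h7, hs]; ring
        exact (sub_eq_zero.1 this).symm
      · rcases h1 with h1 | h1
        · refine hd 5 (by norm_num) (by omega) ?_
          have : (2 : ZMod n) = 2 * s + 1 := by rw [← h7, h1]; ring
          push_cast
          rw [hs] at this
          linear_combination this
        · refine hd 6 (by norm_num) (by omega) ?_
          have : (3 : ZMod n) = 2 * s + 1 := by rw [← h7, h1]; ring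
          push_cast
          rw [hs] at this
          linear_combination this
    refine hK c d l h h5 h6 hE fun _ _ => ?_
    have hl : ∀ k : ℤ, -6 ≤ k → k ≤ 3 → l ≠ d + (k : ZMod n) := fun k => not_mem_bad h6 k
    refine ⟨far _ _ ?_, far _ _ ?_, far _ _ ?_⟩
    · intro k k1 k2 hh
      refine hl (-k) (by omega) (by omega) ?_
      push_cast
      linear_combination -hh
    · intro k k1 k2 hh
      refine hl (-k - 2) (by omega) (by omega) ?_
      push_cast
      linear_combination -hh
    · intro k k1 k2 hh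
      refine hl (-k - 3) (by omega) (by omega) ?_
      push_cast
      linear_combination -hh
  by_cases h1 : ∀ k : ℤ, -3 ≤ k → k ≤ 3 → d ≠ c + (k : ZMod n)
  · exact far c d h1
  · push Not at h1
    obtain ⟨k, k1, k2, h2⟩ := h1
    have h3 : k = -3 ∨ k = -2 ∨ k = -1 ∨ k = 0 ∨ k = 1 ∨ k = 2 ∨ k = 3 := by omega
    rcases h3 with h3 | h3 | h3 | h3 | h3 | h3 | h3 <;> subst h3 <;> push_cast at h2
    · rw [hg]
      exact near d c h.symm (Or.inr (by rw [h2]; ring))
    · rw [hg]
      exact near d c h.symm (Or.inl (by rw [h2]; ring))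
    · exact absurd (by rw [h2]; ring) h.2.2
    · exact absurd (by rw [h2, add_zero]) h.1
    · exact absurd h2 h.2.1
    · exact near c d h (Or.inl h2)
    · exact near c d h (Or.inr h2)

omit [NeZero n] in
/-- two exceptional sets -/
theorem lemQ {s r : ZMod n} (h2 : (2 : ZMod n) ≠ 0) (h4 : (4 : ZMod n) ≠ 0)
    (hsm : s ≠ -1) (h : E s r) (h' : E (-s) (-r)) :
    r = s ∨ (s = 3 ∧ r = 5) ∨ (s = -3 ∧ r = -5) := by
  rcases h with h | h | h
  · exact Or.inl h
  · rcases h' with h' | h' | h'
    · exact absurd (by linear_combination -h - h') h2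
    · exact absurd (by linear_combination -h - h') h4
    · refine Or.inr (Or.inl ⟨?_, ?_⟩)
      · linear_combination h + h'
      · linear_combination 2 * h + h'
  · rcases h' with h' | h' | h'
    · exact absurd (by linear_combination -h - h') hsm
    · refine Or.inr (Or.inr ⟨?_, ?_⟩)
      · linear_combination -h - h'
      · linear_combination -h - 2 * h'
    · exact absurd (by linear_combination -h - h') h2

/-- a short arc is not in both exceptional sets -/
theorem lemS (hn : 303 ≤ n) {s r : ZMod n} (h2s : 2 * s ≠ 0) (h4s : 4 * s ≠ 0) (h1 : 2 ≤ r.val)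
    (h2 : r.val ≤ 100) (h : E s r) (h' : E (-s) r) : False := by
  obtain ⟨k, hk1, hk2, hr⟩ : ∃ k : ℕ, 2 ≤ k ∧ k ≤ 100 ∧ (k : ZMod n) = r :=
    ⟨r.val, h1, h2, ZMod.natCast_zmod_val r⟩
  have e1 : 2 * r ≠ 2 := by
    intro e
    refine small (n := n) (2 * k - 2) (by omega) (by omega) ?_
    rw [Nat.cast_sub (by omega)]
    push_cast
    rw [hr]
    linear_combination e
  have e2 : 3 * r ≠ 1 := by
    intro e
    refine small (n := n) (3 * k - 1) (by omega) (by omega) ?_
    rw [Nat.cast_sub (by omega)]
    push_cast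
    rw [hr]
    linear_combination e
  have e3 : 3 * r ≠ 5 := by
    intro e
    refine small (n := n) (3 * k - 5) (by omega) (by omega) ?_
    rw [Nat.cast_sub (by omega)]
    push_cast
    rw [hr]
    linear_combination e
  rcases h with h | h | h <;> rcases h' with h' | h' | h'
  · exact h2s (by linear_combination h' - h)
  · exact e1 (by linear_combination h + h')
  · exact e2 (by linear_combination 2 * h + h')
  · exact e1 (by linear_combination h + h')
  · exact h2s (by linear_combination h' - h)
  · exact e3 (by linear_combination 2 * h + h')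
  · exact e2 (by linear_combination h + 2 * h')
  · exact e3 (by linear_combination h + 2 * h')
  · exact h4s (by linear_combination h' - h)

/-- the general case -/
theorem general (hn : 303 ≤ n) {s : ZMod n} (hu : IsUnit s) (hs1 : s ≠ 1) (hsm : s ≠ -1)
    (hs2 : s ≠ 2) (hs2' : s ≠ -2) {g g' : ZMod n → ZMod n → F} (hg : ∀ c d, g c d = g d c)
    (hg' : ∀ c d, g' c d = g (-c) (-d)) (hK : KC s g) (hK' : KC (-s) g') {c d : ZMod n}
    (h : NA c d) : g c d = 0 := by
  have hsmall := @small n
  have n2 : (2 : ZMod n) ≠ 0 := by simpa using hsmall 2 (by norm_num) (by omega)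
  have n4 : (4 : ZMod n) ≠ 0 := by simpa using hsmall 4 (by norm_num) (by omega)
  have n6 : (6 : ZMod n) ≠ 0 := by simpa using hsmall 6 (by norm_num) (by omega)
  have n8 : (8 : ZMod n) ≠ 0 := by simpa using hsmall 8 (by norm_num) (by omega)
  have n10 : (10 : ZMod n) ≠ 0 := by simpa using hsmall 10 (by norm_num) (by omega)
  have h2s : 2 * s ≠ 0 := fun e => n2 ((hu.mul_left_eq_zero).1 e)
  have h4s : 4 * s ≠ 0 := fun e => n4 ((hu.mul_left_eq_zero).1 e)
  by_contra hne
  have kA : ∀ c d : ZMod n, NA c d → 100 < (c - d).val → g c d ≠ 0 → E s (d - c) := by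
    intro c d h1 h2 h3
    by_contra h4
    exact h3 (kill1 hK h1 h2 h4 (fun h5 => absurd h5 hs2'))
  have kB : ∀ c d : ZMod n, NA c d → 100 < (c - d).val → g c d ≠ 0 → E (-s) (d - c) := by
    intro c d h1 h2 h3
    by_contra h4
    apply h3
    have h5 : NA (-d) (-c) := by
      refine ⟨fun e => h1.1 (neg_injective e).symm, fun e => h1.2.1 ?_, fun e => h1.2.2 ?_⟩
      · linear_combination e
      · linear_combination e
    have h6 := kill1 hK' h5 (by rw [show -d - -c = c - d by ring]; exact h2)
      (by rw [show -c - -d = d - c by ring]; exact h4)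
      (fun h6 => absurd (by linear_combination -h6) hs2)
    rw [hg', neg_neg, neg_neg, hg] at h6
    exact h6
  have hv := val_add h.1
  have hne' : g d c ≠ 0 := by rw [hg]; exact hne
  have hval : ∀ c d : ZMod n, NA c d → 2 ≤ (d - c).val := by
    intro c d h1
    by_contra h2
    have h3 : (d - c).val = 0 ∨ (d - c).val = 1 := by omega
    rcases h3 with h3 | h3
    · rw [ZMod.val_eq_zero] at h3
      exact h1.1 (sub_eq_zero.1 h3).symm
    · have h4 : d - c = ((1 : ℕ) : ZMod n) := by
        rw [← h3, ZMod.natCast_zmod_val]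
      apply h1.2.1
      push_cast at h4
      linear_combination h4
  have hd := hval c d h
  have hc := hval d c h.symm
  rcases Nat.lt_or_ge 100 (d - c).val with h1 | h1
  · rcases Nat.lt_or_ge 100 (c - d).val with h2 | h2
    · have a1 := kA c d h h2 hne
      have a2 := kB c d h h2 hne
      have a3 := kA d c h.symm h1 hne'
      have a4 := kB d c h.symm h1 hne'
      rw [show c - d = -(d - c) by ring] at a3 a4
      have b1 := lemQ n2 n4 hsm a1 a4
      have b2 := lemQ (s := -s) n2 n4 (fun e => hs1 (neg_injective e)) a2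
        (by rw [neg_neg]; exact a3)
      rcases b1 with b1 | ⟨b1, b3⟩ | ⟨b1, b3⟩ <;> rcases b2 with b2 | ⟨b2, b4⟩ | ⟨b2, b4⟩
      · exact h2s (by linear_combination b2 - b1)
      · exact n8 (by linear_combination b1 - b2 - b4)
      · exact n8 (by linear_combination b2 + b4 - b1)
      · exact n8 (by linear_combination b2 - b3 - b1)
      · exact n6 (by linear_combination -b1 - b2)
      · exact n10 (by linear_combination b4 - b3)
      · exact n8 (by linear_combination b3 - b2 + b1)
      · exact n10 (by linear_combination b3 - b4)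
      · exact n6 (by linear_combination b1 + b2)
    · exact lemS hn h2s h4s hc h2 (kA d c h.symm h1 hne') (kB d c h.symm h1 hne')
  · exact lemS hn h2s h4s hd h1 (kA c d h (by omega) hne) (kB c d h (by omega) hne)

/-- the reflection -/
theorem refl_van {i : ℕ} (hi : i ≤ n) [Fintype F] [DecidableEq F] [CharP F 2] (hF : Fintype.card F = 2 ^ n)
    {u : F} {g : ZMod n → ZMod n → F} (h : VanZ i u g) :
    VanZ (n - i) (u ^ (2 ^ (n - i))) (fun c d => g (-c) (-d)) := by
  intro A B hAB
  have hn1 : ∀ x : F, (x ^ (2 ^ (n - i))) ^ (2 ^ i) = x := by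
    intro x
    rw [← pow_mul, ← pow_add, Nat.sub_add_cancel hi, ← hF, FiniteField.pow_card]
  have h1 : A ^ (2 ^ i) * B + A * B ^ (2 ^ i) = u := by
    have h2 : (A ^ (2 ^ (n - i)) * B + A * B ^ (2 ^ (n - i))) ^ (2 ^ i) =
        (u ^ (2 ^ (n - i))) ^ (2 ^ i) := by rw [hAB]
    rw [add_pow_char_pow, mul_pow, mul_pow, hn1, hn1, hn1] at h2
    rw [← h2]
    ring
  have h2 := h A B h1
  have hfr : ∀ (c : ZMod n) (x : F), fr (n - i) c x = fr i (-c) x := by
    intro c x
    rw [fr_eq hF (j := -c) (a := (n - i) * c.val)]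
    · rfl
    · push_cast
      rw [Nat.cast_sub hi, ZMod.natCast_self, ZMod.natCast_zmod_val]
      ring
  rw [← h2, ← Equiv.sum_comp (Equiv.neg (ZMod n))]
  refine Finset.sum_congr rfl fun c _ => ?_
  rw [← Equiv.sum_comp (Equiv.neg (ZMod n))]
  refine Finset.sum_congr rfl fun d _ => ?_
  simp only [Equiv.neg_apply]
  rw [hfr, hfr]
  simp only [neg_neg]

/-- the shift of the reflection -/
theorem sh_refl {i : ℕ} (hi : i ≤ n) (hc : Nat.Coprime i n) : sh n (n - i) = -sh n i := by
  have h1 := sh_mul (n := n) hc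
  have h2 := sh_mul (n := n) ((Nat.coprime_self_sub_left hi).2 hc)
  rw [Nat.cast_sub hi, ZMod.natCast_self, zero_sub] at h2
  linear_combination (-sh n i) * h2 - sh n (n - i) * h1

end GZ7

open GZ7 in
/-- row GZ -/
theorem stGZ_7 (hK : StKillC) : StGZ := by
  intro i n _ hn hi hi2 hc F _ _ _ _ hF u hu g hg hg0 hV c d h1 h2 h3
  have hile : i ≤ n := by omega
  have hc' : Nat.Coprime (n - i) n := (Nat.coprime_self_sub_left hile).2 hc
  have hmul := sh_mul (n := n) hc
  have hunit : IsUnit (sh n i) := IsUnit.of_mul_eq_one _ (by rw [mul_comm]; exact hmul)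
  have hs1 : sh n i ≠ 1 := by
    intro h
    rw [h, mul_one] at hmul
    refine small (n := n) (i - 1) (by omega) (by omega) ?_
    rw [Nat.cast_sub (by omega), hmul]
    push_cast
    ring
  have hsm : sh n i ≠ -1 := by
    intro h
    rw [h] at hmul
    refine small (n := n) (i + 1) (by omega) (by omega) ?_
    push_cast
    linear_combination -hmul
  have hV' := refl_van hile hF hV
  have hs' := sh_refl hile hc
  set g' : ZMod n → ZMod n → F := fun c d => g (-c) (-d) with hg'
  have hK1 : sh n i ≠ 2 → KC (sh n i) g := by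
    intro hs2 c d l h4 h5 h6 h7 h8
    refine hK i n (by omega) hc F hF u hu g hg hg0 hV hs1 hsm hs2 c d l h4.1 h4.2.1 h4.2.2 h5 h6
      (fun e => h7 (Or.inl (by rw [e]; ring))) (fun e => h7 (Or.inr (Or.inl (by rw [e]; ring))))
      (fun e => h7 (Or.inr (Or.inr (by rw [e]; ring)))) h8
  have hK2 : -sh n i ≠ 2 → KC (-sh n i) g' := by
    intro hs2 c d l h4 h5 h6 h7 h8
    rw [← hs'] at hs2 h6 h7 h8
    refine hK (n - i) n (by omega) hc' F hF _ (pow_ne_zero _ hu) g'
      (fun c d => by rw [hg']; exact hg _ _) (fun c => by rw [hg']; exact hg0 _) hV'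
      (by rw [hs']; exact fun e => hsm (by rw [← e, neg_neg]))
      (by rw [hs']; exact fun e => hs1 (neg_injective e)) hs2 c d l h4.1 h4.2.1 h4.2.2 h5 h6
      (fun e => h7 (Or.inl (by rw [e]; ring))) (fun e => h7 (Or.inr (Or.inl (by rw [e]; ring))))
      (fun e => h7 (Or.inr (Or.inr (by rw [e]; ring)))) h8
  have n4 : (4 : ZMod n) ≠ 0 := by simpa using small (n := n) 4 (by norm_num) (by omega)
  by_cases hs2 : sh n i = 2
  · have h4 : -sh n i = -2 := by rw [hs2]
    have h5 : -sh n i ≠ 2 := fun e => n4 (by linear_combination h4 - e)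
    have h6 := minus_two hn h4 (g := g') (fun c d => by rw [hg']; exact hg _ _) (hK2 h5)
      (c := -c) (d := -d) ⟨fun e => h1 (neg_injective e), fun e => h3 (by linear_combination e),
        fun e => h2 (by linear_combination e)⟩
    rw [hg'] at h6
    simpa using h6
  · by_cases hs2' : sh n i = -2
    · exact minus_two hn hs2' hg (hK1 hs2) ⟨h1, h2, h3⟩
    · exact general hn hunit hs1 hsm hs2 hs2' hg (fun c d => rfl) (hK1 hs2)
        (hK2 (fun e => hs2' (by rw [← e, neg_neg]))) ⟨h1, h2, h3⟩

end Pool.Agent.Lib.MP_eacabd_co.Uni8
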