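import Mathlib
import Pool.Agent.Lib.MP_eacabd_co.Uni8.StmtsU
import Pool.Agent.Lib.MP_eacabd_co.Wide8.IdA

/-!
Switching of the Gold functions, all exponents at once: the module KILLC (one coefficient
vanishes).
-/

set_option autoImplicit false
set_option linter.unusedSectionVars false

namespace Pool.Agent.Lib.MP_eacabd_co.Uni8

open Finset Pool.Agent.Lib.MP_eacabd_co Pool.Agent.Lib.MP_eacabd_co.Gold8
open Pool.Agent.Lib.MP_eacabd_co.Wide8

variable {n : ℕ} [NeZero n] {F : Type} [Field F] [Fintype F] [DecidableEq F] [CharP F 2]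
variable {i : ℕ} (hc : Nat.Coprime i n) (hF : Fintype.card F = 2 ^ n)

/-- a symmetric sum with zero diagonal -/
theorem sym_zero (w : ZMod n → ZMod n → F) (h1 : ∀ a b, w a b = w b a) (h2 : ∀ a, w a a = 0) :
    ∑ a : ZMod n, ∑ b : ZMod n, w a b = 0 := by
  rw [← Fintype.sum_prod_type' (f := w)]
  refine sum_involution (fun p _ => p.swap) ?_ ?_ ?_ ?_
  · rintro ⟨a, b⟩ _
    show w a b + w b a = 0
    rw [h1 a b, CharTwo.add_self_eq_zero]
  · rintro ⟨a, b⟩ _ h3 h4
    have h5 : b = a := congrArg Prod.fst h4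
    subst h5
    exact h3 (h2 _)
  · intro p _
    exact mem_univ _
  · intro p _
    exact Prod.swap_swap p

include hc hF in
/-- the identity, with the base point `b` -/
theorem ident_b {u : F} {g : ZMod n → ZMod n → F} (hs : ∀ c d, g c d = g d c)
    (h0 : ∀ c, g c c = 0) (hV : VanZ i u g) (b : ZMod n) {A : F} (hA : A ≠ 0) :
    ∑ c : ZMod n, ∑ d : ZMod n, g c d * (fr i c A * fr i d A) *
      ((1 + tr n (u / A ^ (2 ^ i + 1))) * ∑ t ∈ II b d, fr i t (u / A ^ (2 ^ i + 1))) = 0 := by
  have two : (2 : F) = 0 := CharTwo.two_eq_zero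
  set z : F := u / A ^ (2 ^ i + 1) with hz
  rcases zero_or_one_of_sq (tr_sq hF z) with ht | ht
  · obtain ⟨y, hy⟩ := exists_y hc hF ht
    have hA1 : A ^ (2 ^ i + 1) ≠ 0 := pow_ne_zero _ hA
    have h1 : A ^ (2 ^ i) * (A * y) + A * (A * y) ^ (2 ^ i) = u := by
      have h2 : A ^ (2 ^ i) * (A * y) + A * (A * y) ^ (2 ^ i)
          = A ^ (2 ^ i + 1) * (y ^ (2 ^ i) + y) := by
        rw [mul_pow, pow_succ]
        ring
      rw [h2, hy, hz, mul_div_cancel₀ _ hA1]
    have h3 := hV A (A * y) h1
    have h4 : ∀ t : ZMod n, fr i t z = fr i (t + 1) y + fr i t y := by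
      intro t
      rw [← hy, fr_add, fr_succ hF]
    have h5 : ∀ d : ZMod n, ∑ t ∈ II b d, fr i t z = fr i d y + fr i b y := by
      intro d
      rw [sum_congr rfl fun t _ => h4 t, tel_II (fun t => fr i t y)]
    have h6 : ∑ c : ZMod n, ∑ d : ZMod n, g c d * (fr i c A * fr i d A) * fr i b y = 0 := by
      apply sym_zero
      · intro a d
        rw [hs a d]
        ring
      · intro a
        rw [h0, zero_mul, zero_mul]
    have h7 : ∑ c : ZMod n, ∑ d : ZMod n, g c d * (fr i c A * fr i d A) *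
        ((1 + tr n z) * ∑ t ∈ II b d, fr i t z)
        = (∑ c : ZMod n, ∑ d : ZMod n, g c d * (fr i c A * fr i d (A * y)))
          + ∑ c : ZMod n, ∑ d : ZMod n, g c d * (fr i c A * fr i d A) * fr i b y := by
      rw [← sum_add_distrib]
      refine sum_congr rfl fun c _ => ?_
      rw [← sum_add_distrib]
      refine sum_congr rfl fun d _ => ?_
      rw [ht, h5, fr_mul]
      ring
    rw [h7, h3, h6, add_zero]
  · refine sum_eq_zero fun c _ => sum_eq_zero fun d _ => ?_
    have h1 : (1 : F) + 1 = 0 := CharTwo.add_self_eq_zero 1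
    rw [ht, h1, zero_mul, mul_zero]

/-- the exponents -/
def ee (i : ℕ) (j : ZMod n) : R n := pw ((i : ZMod n) * j)

include hF in
theorem fr_ex (j : ZMod n) (v : Fˣ) : fr i j (v : F) = ex (ee i j) v := by
  have h1 := ex_P (n := n) hF i j.val v
  have h2 : P n i j.val = (i : ZMod n) * j := by
    unfold P
    rw [Nat.cast_mul, ZMod.natCast_zmod_val]
  rw [h2] at h1
  exact h1.symm

/-- coefficients of the first kind -/
def co1 (i : ℕ) (b d t : ZMod n) : F :=
  (if t ∈ II b d then 1 else 0) + (if t - sh n i ∈ II b d then 1 else 0)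

include hc hF in
/-- the identity as a sum of powers -/
theorem ident_ex {u : F} {g : ZMod n → ZMod n → F} (hs : ∀ c d, g c d = g d c)
    (h0 : ∀ c, g c c = 0) (hV : VanZ i u g) (b : ZMod n) (v : Fˣ) :
    ∑ c : ZMod n, ∑ d : ZMod n, ((∑ t : ZMod n, g c d * (co1 i b d t * fr i t u) *
        ex (ee i c + ee i d - (ee i t + ee i (t + 1))) v) +
      ∑ t ∈ II b d, ∑ l ∈ (II b d)ᶜ, g c d * (fr i t u * fr i l u) *
        ex (ee i c + ee i d - (ee i t + ee i (t + 1)) - (ee i l + ee i (l + 1))) v) = 0 := by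
  have h1 := ident_b hc hF hs h0 hV b (v.ne_zero)
  refine Eq.trans ?_ h1
  refine sum_congr rfl fun c _ => sum_congr rfl fun d _ => ?_
  rw [one_tr_mul hc hF, mul_add, mul_sum, mul_sum]
  congr 1
  · refine sum_congr rfl fun t _ => ?_
    rw [fr_quot hF, ex_sub hF, ex_add hF, ex_add hF, fr_ex hF, fr_ex hF, fr_ex hF, fr_ex hF]
    unfold co1
    rw [div_eq_mul_inv]
    ring
  · refine sum_congr rfl fun t _ => ?_
    rw [mul_sum]
    refine sum_congr rfl fun l _ => ?_
    rw [fr_quot hF, fr_quot hF, ex_sub hF, ex_sub hF, ex_add hF, ex_add hF, ex_add hF, fr_ex hF,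
      fr_ex hF, fr_ex hF, fr_ex hF, fr_ex hF, fr_ex hF]
    rw [div_eq_mul_inv, div_eq_mul_inv]
    ring

include hc hF in
/-- the extraction of a coefficient -/
theorem ident_cf {u : F} {g : ZMod n → ZMod n → F} (hs : ∀ c d, g c d = g d c)
    (h0 : ∀ c, g c c = 0) (hV : VanZ i u g) (b : ZMod n) (E : R n) :
    ∑ c : ZMod n, ∑ d : ZMod n, ((∑ t : ZMod n, if ee i c + ee i d - (ee i t + ee i (t + 1)) = E
        then g c d * (co1 i b d t * fr i t u) else 0) +
      ∑ t ∈ II b d, ∑ l ∈ (II b d)ᶜ, if ee i c + ee i d - (ee i t + ee i (t + 1)) -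
        (ee i l + ee i (l + 1)) = E then g c d * (fr i t u * fr i l u) else 0) = 0 := by
  have key : ∀ (x : F) (e : R n), ∑ v : Fˣ, x * ex e v * ex (-E) v = if e = E then x else 0 := by
    intro x e
    have h1 : ∀ v : Fˣ, x * ex e v * ex (-E) v = x * (ex (e - E) v : F) := by
      intro v
      rw [sub_eq_add_neg, ex_add hF]
      ring
    rw [sum_congr rfl fun v _ => h1 v, ← mul_sum, sum_ex hF]
    by_cases h2 : e = E
    · rw [if_pos (sub_eq_zero.2 h2), if_pos h2, mul_one]
    · rw [if_neg (fun h => h2 (sub_eq_zero.1 h)), if_neg h2, mul_zero]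
  have h1 : ∑ v : Fˣ, (∑ c : ZMod n, ∑ d : ZMod n, ((∑ t : ZMod n, g c d *
        (co1 i b d t * fr i t u) * ex (ee i c + ee i d - (ee i t + ee i (t + 1))) v) +
      ∑ t ∈ II b d, ∑ l ∈ (II b d)ᶜ, g c d * (fr i t u * fr i l u) *
        ex (ee i c + ee i d - (ee i t + ee i (t + 1)) - (ee i l + ee i (l + 1))) v)) *
          ex (-E) v = 0 := by
    refine sum_eq_zero fun v _ => ?_
    rw [ident_ex hc hF hs h0 hV b v, zero_mul]
  refine Eq.trans ?_ h1
  simp only [sum_mul]
  conv_rhs => rw [sum_comm]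
  refine sum_congr rfl fun c _ => ?_
  conv_rhs => rw [sum_comm]
  refine sum_congr rfl fun d _ => ?_
  simp only [add_mul, sum_mul]
  conv_rhs => rw [sum_add_distrib]
  congr 1
  · conv_rhs => rw [sum_comm]
    refine sum_congr rfl fun t _ => ?_
    rw [key]
  · conv_rhs => rw [sum_comm]
    refine sum_congr rfl fun t _ => ?_
    conv_rhs => rw [sum_comm]
    refine sum_congr rfl fun l _ => ?_
    rw [key]

/-- a sum with one term -/
theorem quadr (S : ZMod n → Finset (ZMod n)) (T : ZMod n → ZMod n → ZMod n → ZMod n → F)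
    (c0 d0 t0 l0 : ZMod n) (ht : t0 ∈ S d0) (hl : l0 ∈ (S d0)ᶜ) :
    ∑ c : ZMod n, ∑ d : ZMod n, ∑ t ∈ S d, ∑ l ∈ (S d)ᶜ,
      (if c = c0 ∧ d = d0 ∧ t = t0 ∧ l = l0 then 1 else 0) * T c d t l = T c0 d0 t0 l0 := by
  rw [sum_eq_single c0, sum_eq_single d0, sum_eq_single t0, sum_eq_single l0]
  · rw [if_pos ⟨rfl, rfl, rfl, rfl⟩, one_mul]
  · intro l _ h
    rw [if_neg fun h0 => h h0.2.2.2, zero_mul]
  · intro h
    exact absurd hl h
  · intro t _ h
    refine sum_eq_zero fun l _ => ?_
    rw [if_neg fun h0 => h h0.2.2.1, zero_mul]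
  · intro h
    exact absurd ht h
  · intro d _ h
    refine sum_eq_zero fun t _ => sum_eq_zero fun l _ => ?_
    rw [if_neg fun h0 => h h0.2.1, zero_mul]
  · intro h
    exact absurd (mem_univ _) h
  · intro c _ h
    refine sum_eq_zero fun d _ => sum_eq_zero fun t _ => sum_eq_zero fun l _ => ?_
    rw [if_neg fun h0 => h h0.1, zero_mul]
  · intro h
    exact absurd (mem_univ _) h

theorem mem_Bad_c {s c d : ZMod n} (a : ℤ) (h1 : -6 ≤ a) (h2 : a ≤ 3) :
    c + (a : ZMod n) ∈ Bad s c d := by
  unfold Bad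
  refine mem_union_left _ (mem_image.2 ⟨(a, 0), ?_, ?_⟩)
  · rw [mem_product, mem_Icc, mem_Icc]
    exact ⟨⟨h1, h2⟩, by norm_num, by norm_num⟩
  · simp

/-- (KILLC) -/
theorem killC (hD : StDbl) (hC : StCls) (hU : StClu) : StKillC := by
  intro i n _ hn hc F _ _ _ _ hF u hu g hs h0 hV s1 s2 s3 c d l hcd hd1 hc1 hl hBad d1 d2 d3 h4
  have : Fact (1 < n) := ⟨by omega⟩
  have D := hD i n hn hc
  have hunit : IsUnit (sh n i) := by
    have h1 := sh_mul (n := n) hc
    exact IsUnit.of_mul_eq_one _ ((mul_comm _ _).trans h1)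
  set E : R n := ee i d - ee i (c + 1) - (ee i l + ee i (l + 1)) with hE
  have id := ident_cf hc hF hs h0 hV c E
  -- the first part vanishes
  have p1 : ∀ a b t : ZMod n, (if ee i a + ee i b - (ee i t + ee i (t + 1)) = E
      then g a b * (co1 i c b t * fr i t u) else 0) = 0 := by
    intro a b t
    by_cases h1 : ee i a + ee i b - (ee i t + ee i (t + 1)) = E
    · rw [if_pos h1]
      by_cases hab : a = b
      · rw [hab, h0, zero_mul]
      · exfalso
        rcases hU n hn (R n) _ (sh n i) D hunit s1 s2 c d l hcd hd1 hc1 hBad a b t hab (by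
          show ee i d + (ee i t + ee i (t + 1)) = ee i (c + 1) + (ee i l + ee i (l + 1)) +
            (ee i a + ee i b)
          rw [hE] at h1
          linear_combination -h1) with h2 | h2
        · exact d3 h2
        · exact s3 h2
    · rw [if_neg h1]
  have val1 : (d - c).val ≠ 0 := fun h => hcd (sub_eq_zero.1 ((ZMod.val_eq_zero _).1 h)).symm
  have one_val : (1 : ZMod n).val = 1 := ZMod.val_one n
  have two_val : (2 : ZMod n).val = 2 := by
    have h1 : ((2 : ℕ) : ZMod n).val = 2 := ZMod.val_cast_of_lt (by omega)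
    exact_mod_cast h1
  have val2 : (d - c).val ≠ 1 := by
    intro h
    apply hd1
    have h1 : d - c = 1 := ZMod.val_injective n (h.trans one_val.symm)
    linear_combination h1
  have lc : l ≠ c := by
    intro h
    apply hBad
    have h1 := mem_Bad_c (s := sh n i) (c := c) (d := d) 0 (by norm_num) (by norm_num)
    rw [h]
    simpa using h1
  have lc1 : l ≠ c + 1 := by
    intro h
    apply hBad
    have h1 := mem_Bad_c (s := sh n i) (c := c) (d := d) 1 (by norm_num) (by norm_num)
    rw [h]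
    simpa using h1
  -- memberships
  have m1 : c ∈ II c d := by
    rw [mem_II, sub_self, ZMod.val_zero]
    omega
  have m2 : l ∈ (II c d)ᶜ := by
    rw [mem_compl, mem_II]
    omega
  have m3 : c + 1 ∈ II c d := by
    rw [mem_II, add_sub_cancel_left, one_val]
    omega
  have m4 : c + 1 ∈ II c (c + 2) := by
    rw [mem_II, add_sub_cancel_left, add_sub_cancel_left, one_val, two_val]
    omega
  have m5 : l ∉ II c (c + 2) := by
    rw [mem_II, add_sub_cancel_left, two_val]
    intro h
    have h1 : (l - c).val = 0 ∨ (l - c).val = 1 := by omega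
    rcases h1 with h1 | h1
    · exact lc (sub_eq_zero.1 ((ZMod.val_eq_zero _).1 h1))
    · have h2 : l - c = 1 := ZMod.val_injective n (h1.trans one_val.symm)
      exact lc1 (by linear_combination h2)
  have m6 : l ∈ (II c (c + 2))ᶜ := mem_compl.2 m5
  have tt : (c : ZMod n) ≠ c + 1 := by
    intro h
    have h1 : (1 : ZMod n) = 0 := by linear_combination -h
    exact one_ne_zero h1
  set T : ZMod n → ZMod n → ZMod n → ZMod n → F := fun a b t m =>
    g a b * (fr i t u * fr i m u) with hT
  have p2 : ∀ a b t m : ZMod n, t ∈ II c b → m ∈ (II c b)ᶜ →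
      (if ee i a + ee i b - (ee i t + ee i (t + 1)) - (ee i m + ee i (m + 1)) = E
        then g a b * (fr i t u * fr i m u) else 0) =
      (if a = c ∧ b = d ∧ t = c ∧ m = l then 1 else 0) * T a b t m
        + (if a = c + 2 ∧ b = d ∧ t = c + 1 ∧ m = l then 1 else 0) * T a b t m
        + (if a = d ∧ b = c + 2 ∧ t = c + 1 ∧ m = l then 1 else 0) * T a b t m := by
    intro a b t m ht hm
    have hm' := mem_compl.1 hm
    by_cases h1 : ee i a + ee i b - (ee i t + ee i (t + 1)) - (ee i m + ee i (m + 1)) = E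
    · rw [if_pos h1]
      have zero : g a b = 0 → g a b * (fr i t u * fr i m u) =
          (if a = c ∧ b = d ∧ t = c ∧ m = l then 1 else 0) * T a b t m
            + (if a = c + 2 ∧ b = d ∧ t = c + 1 ∧ m = l then 1 else 0) * T a b t m
            + (if a = d ∧ b = c + 2 ∧ t = c + 1 ∧ m = l then 1 else 0) * T a b t m := by
        intro h5
        rw [hT]
        simp only [h5, zero_mul, mul_zero, add_zero]
      by_cases hab : a = b
      · exact zero (by rw [hab, h0])
      · have htm : t ≠ m := fun h => hm' (h ▸ ht)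
        rcases hC n hn (R n) _ (sh n i) D hunit s1 s2 c d l hcd hd1 hc1 hBad a b t m hab htm (by
          show ee i d + (ee i t + ee i (t + 1)) + (ee i m + ee i (m + 1)) = ee i (c + 1) +
            (ee i l + ee i (l + 1)) + (ee i a + ee i b)
          rw [hE] at h1
          linear_combination -h1) with h2 | h2 | h2 | h2 | h2 | h2
        · obtain ⟨h5, h6⟩ := h2
          rcases h5 with ⟨ha, hb⟩ | ⟨ha, hb⟩
          · rcases h6 with ⟨h7, h8⟩ | ⟨h7, h8⟩
            · have n1 : a = c ∧ b = d ∧ t = c ∧ m = l := ⟨ha, hb, h7, h8⟩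
              have n2 : ¬ (a = c + 2 ∧ b = d ∧ t = c + 1 ∧ m = l) :=
                fun h => tt (h7.symm.trans h.2.2.1)
              have n3 : ¬ (a = d ∧ b = c + 2 ∧ t = c + 1 ∧ m = l) :=
                fun h => tt (h7.symm.trans h.2.2.1)
              rw [if_pos n1, if_neg n2, if_neg n3, zero_mul, add_zero, add_zero, one_mul]
            · exfalso
              rw [h7, hb] at ht
              exact mem_compl.1 m2 ht
          · exfalso
            rw [hb, mem_II, sub_self, ZMod.val_zero] at ht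
            exact Nat.not_lt_zero _ ht
        · obtain ⟨h5, h6⟩ := h2
          rcases h5 with ⟨ha, hb⟩ | ⟨ha, hb⟩
          · rcases h6 with ⟨h7, h8⟩ | ⟨h7, h8⟩
            · have n1 : ¬ (a = c ∧ b = d ∧ t = c ∧ m = l) :=
                fun h => tt (h.2.2.1.symm.trans h7)
              have n3 : ¬ (a = d ∧ b = c + 2 ∧ t = c + 1 ∧ m = l) :=
                fun h => hab (ha.trans h.2.1.symm)
              have n2 : a = c + 2 ∧ b = d ∧ t = c + 1 ∧ m = l := ⟨ha, hb, h7, h8⟩
              rw [if_neg n1, if_pos n2, if_neg n3, zero_mul, add_zero, zero_add, one_mul]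
            · exfalso
              rw [h7, hb] at ht
              exact mem_compl.1 m2 ht
          · rcases h6 with ⟨h7, h8⟩ | ⟨h7, h8⟩
            · have n1 : ¬ (a = c ∧ b = d ∧ t = c ∧ m = l) :=
                fun h => tt (h.2.2.1.symm.trans h7)
              have n2 : ¬ (a = c + 2 ∧ b = d ∧ t = c + 1 ∧ m = l) :=
                fun h => hab (h.1.trans hb.symm)
              have n3 : a = d ∧ b = c + 2 ∧ t = c + 1 ∧ m = l := ⟨ha, hb, h7, h8⟩
              rw [if_neg n1, if_neg n2, if_pos n3, zero_mul, add_zero, zero_add, one_mul]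
            · exfalso
              rw [h7, hb] at ht
              exact m5 ht
        · exact absurd h2 d1
        · exact absurd h2 d2
        · exact absurd h2 s3
        · obtain ⟨h5, h6, x, y, h7, h8, h9⟩ := h2
          obtain ⟨k1, k2, k3⟩ := h4 h5 h6
          have h10 : g x y = 0 := by
            rw [h8]
            rcases h9 with h9 | h9 | h9
            · rw [h9, k1]
            · rw [h9, k2]
            · rw [h9, k3]
          refine zero ?_
          rcases h7 with ⟨h7, h11⟩ | ⟨h7, h11⟩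
          · rw [h7, h11, h10]
          · rw [h7, h11, hs, h10]
    · rw [if_neg h1, if_neg, if_neg, if_neg, zero_mul, add_zero, add_zero]
      · rintro ⟨ha, hb, h7, h8⟩
        apply h1
        rw [ha, hb, h7, h8, hE, show c + 1 + 1 = c + 2 by ring]
        ring
      · rintro ⟨ha, hb, h7, h8⟩
        apply h1
        rw [ha, hb, h7, h8, hE, show c + 1 + 1 = c + 2 by ring]
        ring
      · rintro ⟨ha, hb, h7, h8⟩
        apply h1
        rw [ha, hb, h7, h8, hE]
        ring
  have e1 : ∀ a b : ZMod n, ((∑ t : ZMod n, if ee i a + ee i b - (ee i t + ee i (t + 1)) = E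
        then g a b * (co1 i c b t * fr i t u) else 0) +
      ∑ t ∈ II c b, ∑ l ∈ (II c b)ᶜ, if ee i a + ee i b - (ee i t + ee i (t + 1)) -
        (ee i l + ee i (l + 1)) = E then g a b * (fr i t u * fr i l u) else 0) =
      (∑ t ∈ II c b, ∑ m ∈ (II c b)ᶜ,
        (if a = c ∧ b = d ∧ t = c ∧ m = l then 1 else 0) * T a b t m)
        + (∑ t ∈ II c b, ∑ m ∈ (II c b)ᶜ,
        (if a = c + 2 ∧ b = d ∧ t = c + 1 ∧ m = l then 1 else 0) * T a b t m)
        + ∑ t ∈ II c b, ∑ m ∈ (II c b)ᶜ,
        (if a = d ∧ b = c + 2 ∧ t = c + 1 ∧ m = l then 1 else 0) * T a b t m := by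
    intro a b
    rw [sum_eq_zero fun t _ => p1 a b t, zero_add, ← sum_add_distrib, ← sum_add_distrib]
    refine sum_congr rfl fun t ht => ?_
    rw [← sum_add_distrib, ← sum_add_distrib]
    exact sum_congr rfl fun m hm => p2 a b t m ht hm
  rw [sum_congr rfl fun a _ => sum_congr rfl fun b _ => e1 a b] at id
  simp only [sum_add_distrib] at id
  rw [quadr (fun b => II c b) T c d c l m1 m2, quadr (fun b => II c b) T (c + 2) d (c + 1) l m3 m2,
    quadr (fun b => II c b) T d (c + 2) (c + 1) l m4 m6] at id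
  rw [hT] at id
  simp only at id
  rw [hs (c + 2) d, add_assoc, CharTwo.add_self_eq_zero, add_zero] at id
  exact (mul_eq_zero.1 id).resolve_right (mul_ne_zero (fr_ne i c hu) (fr_ne i l hu))

end Pool.Agent.Lib.MP_eacabd_co.Uni8
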