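import Pool.Agent.Lib.MP_eacabd_co.Uni8.StmtsU

/-!
Uniform switching of the Gold functions, module MAIN (helper96).
-/

set_option autoImplicit false

namespace Pool.Agent.Lib.MP_eacabd_co.Uni8

open Finset Pool.Agent.Lib.MP_eacabd_co Pool.Agent.Lib.MP_eacabd_co.Gold8
open Pool.Agent.Lib.MP_eacabd_co.Wide8

namespace Main96

theorem sum_val {n : ℕ} [NeZero n] {F : Type} [AddCommMonoid F] (f : ℕ → F) :
    ∑ c : ZMod n, f c.val = ∑ j ∈ range n, f j := by
  refine Finset.sum_nbij' (fun c : ZMod n => c.val) (fun j : ℕ => (j : ZMod n)) ?_ ?_ ?_ ?_ ?_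
  · intro c _
    exact mem_range.2 (ZMod.val_lt c)
  · intro j _
    exact mem_univ _
  · intro c _
    exact ZMod.natCast_zmod_val c
  · intro j hj
    exact ZMod.val_cast_of_lt (mem_range.1 hj)
  · intro c _
    rfl

/-- symmetric coefficients -/
def sy {F : Type} [Zero F] (C : ℕ → ℕ → F) (j k : ℕ) : F :=
  if j < k then C j k else if k < j then C k j else 0

theorem sy_symm {F : Type} [Zero F] (C : ℕ → ℕ → F) (j k : ℕ) : sy C j k = sy C k j := by
  unfold sy
  rcases lt_trichotomy j k with h | h | h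
  · rw [if_pos h, if_neg (by omega), if_pos h]
  · subst h
    rfl
  · rw [if_neg (by omega), if_pos h, if_pos h]

theorem sy_self {F : Type} [Zero F] (C : ℕ → ℕ → F) (j : ℕ) : sy C j j = 0 := by
  unfold sy
  rw [if_neg (lt_irrefl j), if_neg (lt_irrefl j)]

theorem double {F : Type} [Field F] (n : ℕ) (C : ℕ → ℕ → F) (a b : ℕ → F) :
    ∑ j ∈ range n, ∑ k ∈ range n, sy C j k * (a j * b k) =
      ∑ j ∈ range n, ∑ k ∈ range n, (if j < k then C j k * (a j * b k + a k * b j) else 0) := by
  have h1 : ∑ j ∈ range n, ∑ k ∈ range n, sy C j k * (a j * b k) =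
      ∑ j ∈ range n, ∑ k ∈ range n, (if j < k then C j k * (a j * b k) else 0) +
        ∑ j ∈ range n, ∑ k ∈ range n, (if k < j then C k j * (a j * b k) else 0) := by
    rw [← sum_add_distrib]
    refine sum_congr rfl fun j _ => ?_
    rw [← sum_add_distrib]
    refine sum_congr rfl fun k _ => ?_
    unfold sy
    rcases lt_trichotomy j k with h | h | h
    · rw [if_pos h, if_pos h, if_neg (by omega), add_zero]
    · subst h
      rw [if_neg (lt_irrefl j), if_neg (lt_irrefl j), if_neg (lt_irrefl j), zero_mul, add_zero]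
    · rw [if_neg (by omega), if_pos h, if_neg (by omega), if_pos h, zero_add]
  rw [h1, sum_comm (s := range n) (t := range n)
    (f := fun j k => if k < j then C k j * (a j * b k) else 0), ← sum_add_distrib]
  refine sum_congr rfl fun j _ => ?_
  rw [← sum_add_distrib]
  refine sum_congr rfl fun k _ => ?_
  by_cases h : j < k
  · rw [if_pos h, if_pos h, if_pos h]
    ring
  · rw [if_neg h, if_neg h, if_neg h, add_zero]

/-- the identity in the new form -/
theorem vanZ {i n : ℕ} [NeZero n] {F : Type} [Field F] {u : F} (hu : u ≠ 0)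
    {C : ℕ → ℕ → F} (hV : Vanish n i u C) :
    VanZ i u (fun c d : ZMod n => sy C c.val d.val) := by
  intro A B hAB
  have hA : A ≠ 0 := by
    rintro rfl
    apply hu
    rw [← hAB]
    have h1 : (0 : F) ^ (2 ^ i) = 0 := zero_pow (by positivity)
    rw [h1]
    ring
  have hB : B = A * (B / A) := by
    field_simp
  set y := B / A with hy
  have h1 : A * A ^ (2 ^ i) * (y ^ (2 ^ i) + y) = u := by
    rw [← hAB, hB, mul_pow]
    ring
  have h2 := hV A y hA h1
  have h3 : ∑ c : ZMod n, ∑ d : ZMod n, sy C c.val d.val * (fr i c A * fr i d B) =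
      ∑ j ∈ range n, ∑ k ∈ range n,
        sy C j k * (A ^ (2 ^ (i * j)) * B ^ (2 ^ (i * k))) := by
    rw [← sum_val (n := n) (f := fun j => ∑ k ∈ range n,
        sy C j k * (A ^ (2 ^ (i * j)) * B ^ (2 ^ (i * k))))]
    refine sum_congr rfl fun c _ => ?_
    rw [← sum_val (n := n) (f := fun k =>
        sy C c.val k * (A ^ (2 ^ (i * c.val)) * B ^ (2 ^ (i * k))))]
    rfl
  have h4 : ∑ c : ZMod n, ∑ d : ZMod n, sy C c.val d.val * (fr i c A * fr i d B) = 0 := by
    rw [h3, double n C (fun j => A ^ (2 ^ (i * j))) (fun k => B ^ (2 ^ (i * k)))]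
    refine Eq.trans ?_ h2
    refine sum_congr rfl fun j _ => sum_congr rfl fun k _ => ?_
    by_cases h : j < k
    · rw [if_pos h, if_pos h]
      rw [hB, mul_pow, mul_pow]
      ring
    · rw [if_neg h, if_neg h]
  exact h4

end Main96

/-- (MAIN) -/
theorem main_of (hG : StGZ) : StMain := by
  intro i n hn hi hi2 hc F _ _ _ _ hF u hu C hV j k hjk hk h1 h2
  have : NeZero n := ⟨by omega⟩
  have hj : j < n := by omega
  have e1 : ((j : ZMod n)).val = j := ZMod.val_cast_of_lt hj
  have e2 : ((k : ZMod n)).val = k := ZMod.val_cast_of_lt hk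
  have h3 := hG i n hn hi hi2 hc F hF u hu (fun c d : ZMod n => Main96.sy C c.val d.val)
    (fun c d => Main96.sy_symm C _ _) (fun c => Main96.sy_self C _) (Main96.vanZ hu hV)
    (j : ZMod n) (k : ZMod n) ?_ ?_ ?_
  · have h4 : Main96.sy C ((j : ZMod n)).val ((k : ZMod n)).val = 0 := h3
    rw [e1, e2] at h4
    unfold Main96.sy at h4
    rw [if_pos hjk] at h4
    exact h4
  · intro h
    have h4 := congrArg ZMod.val h
    rw [e1, e2] at h4
    omega
  · intro h
    have h4 : ((k : ℕ) : ZMod n) = ((j + 1 : ℕ) : ZMod n) := by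
      rw [h]
      push_cast
      ring
    have h5 := congrArg ZMod.val h4
    rw [e2, ZMod.val_cast_of_lt (by omega : j + 1 < n)] at h5
    exact h1 h5
  · intro h
    have h4 : ((j : ℕ) : ZMod n) = ((k + 1 : ℕ) : ZMod n) := by
      rw [h]
      push_cast
      ring
    have h5 := congrArg ZMod.val h4
    by_cases h6 : k + 1 = n
    · rw [e1, h6, ZMod.natCast_self, ZMod.val_zero] at h5
      exact h2 ⟨h5, h6⟩
    · rw [e1, ZMod.val_cast_of_lt (by omega : k + 1 < n)] at h5
      omega

end Pool.Agent.Lib.MP_eacabd_co.Uni8
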