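import Pool.Agent.Lib.MP_eacabd_co.Uni8.StmtsU
import Pool.Agent.Lib.MP_eacabd_co.Gold8.Switch8

/-!
Uniform switching of the Gold functions, module SWITCH (helper96): the end of the proof of
`Gold8.switch_gold` with the main lemma as a hypothesis.
-/

set_option autoImplicit false

namespace Pool.Agent.Lib.MP_eacabd_co.Uni8

open Finset Pool.Agent.Lib.MP_eacabd_co Pool.Agent.Lib.MP_eacabd_co.Gold8

/-- the main lemma for one exponent and one field -/
def MLem (n i : ℕ) (F : Type) [Field F] : Prop := ∀ u : F, u ≠ 0 → ∀ C : ℕ → ℕ → F,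
  Vanish n i u C → ∀ j k : ℕ, j < k → k < n → k ≠ j + 1 → ¬ (j = 0 ∧ k + 1 = n) → C j k = 0

section Quad

variable {F : Type} [Field F] [Fintype F] [DecidableEq F] [CharP F 2]

theorem tri_zero9 {n i : ℕ} (hn : 303 ≤ n) (hc : Nat.Coprime i n)
    (hF : Fintype.card F = 2 ^ n) (hML : MLem n i F) {u : F} (hu : u ≠ 0) {T : F → F → F → F} (hT : Tri T)
    (hbad : ∀ a b, Gold8.Bad i u a b → ∀ z, T a b z = 0) (x y z : F) : T x y z = 0 := by
  have hn0 : NeZero n := ⟨by omega⟩
  have hV : Vanish n i u (fun j k => t T (i * j) (i * k) 0) := by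
    refine vanish_of hc hF (B := fun x y => cf (T x y) 0) (g := fun e e' => t T e e' 0)
      (fun x y => cf_eq hF hT x y 0) (fun e e' => t_per hF e e' 0) (fun e e' => t_per2 hF hT e e' 0)
      (fun e e' => t_s12 hT e e' 0) (fun e => t_alt hT e 0) ?_
    intro a b hab
    unfold cf
    refine sum_eq_zero fun z _ => ?_
    rw [hbad a b hab, zero_mul]
  have hML : ∀ {j k : ℕ}, j < k → k < n → k ≠ j + 1 → ¬ (j = 0 ∧ k + 1 = n) →
      t T (i * j) (i * k) 0 = 0 := fun h1 h2 h3 h4 => hML _ hu _ hV _ _ h1 h2 h3 h4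
  have hj0 : ∀ b, t T 0 b 0 = 0 := by
    intro b
    rw [t_s23 hT, t_alt hT]
  have hb0 : ∀ a, t T a 0 0 = 0 := by
    intro a
    rw [t_s12 hT, hj0]
  have hlt : ∀ {j k : ℕ}, j < k → k < n → t T (i * j) (i * k) 0 = 0 := by
    intro j k hjk hk
    rcases Nat.eq_zero_or_pos j with rfl | hj
    · rw [mul_zero, hj0]
    by_cases h1 : k = j + 1
    · subst h1
      by_cases h2 : n - j = 2
      · -- shift by one
        have h3 : t T (i * j) (i * (j + 1)) 0 ^ (2 ^ i) = 0 := by
          rw [t_pow hT]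
          have e1 : i * j + i = i * (n - 1) := by
            rw [show n - 1 = j + 1 by omega]
            ring
          have e2 : ∀ m c : ℕ, t T (i * (n - 1)) (0 + m * n) c = t T (i * (n - 1)) 0 c := by
            intro m c
            induction m with
            | zero => rw [zero_mul, add_zero]
            | succ m ih => rw [← ih, add_mul, one_mul, ← add_assoc, t_per2 hF hT]
          have e3 : i * (j + 1) + i = 0 + i * n := by
            rw [show n = j + 2 by omega]
            ring
          rw [e1, e3, e2, zero_add, t_s23 hT, t_s12 hT]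
          have h4 := hML (j := 1) (k := n - 1) (by omega) (by omega) (by omega) (by omega)
          rwa [mul_one] at h4
        exact (pow_eq_zero_iff (by positivity)).1 h3
      · -- shift by `n - j`
        have h3 : t T (i * j) (i * (j + 1)) 0 ^ (2 ^ (i * (n - j))) = 0 := by
          rw [t_pow hT]
          have e1 : i * j + i * (n - j) = 0 + i * n := by
            rw [← mul_add, Nat.add_sub_cancel' (by omega), zero_add]
          have e2 : i * (j + 1) + i * (n - j) = i + i * n := by
            have : i * j + i * (n - j) = i * n := by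
              rw [← mul_add, Nat.add_sub_cancel' (by omega)]
            rw [mul_add, mul_one]
            omega
          have e3 : ∀ (m : ℕ) (a b c : ℕ), t T (a + m * n) b c = t T a b c := by
            intro m a b c
            induction m with
            | zero => rw [zero_mul, add_zero]
            | succ m ih => rw [← ih, add_mul, one_mul, ← add_assoc, t_per hF]
          rw [e1, e2, e3, t_s12 hT, e3, zero_add, t_s23 hT]
          have h4 := hML (j := 1) (k := n - j) (by omega) (by omega) (by omega) (by omega)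
          rwa [mul_one] at h4
        exact (pow_eq_zero_iff (by positivity)).1 h3
    · exact hML hjk hk h1 (by omega)
  have hall : ∀ a b, t T a b 0 = 0 := by
    intro a b
    have hper1 : ∀ a b, t T (a % n) b 0 = t T a b 0 := by
      intro a b
      have hp : Function.Periodic (fun a => t T a b 0) n := fun a => t_per hF a b 0
      exact hp.map_mod_nat a
    obtain ⟨j, hj, e1⟩ := P_surj hc ((a : ℕ) : ZMod n)
    obtain ⟨k, hk, e2⟩ := P_surj hc ((b : ℕ) : ZMod n)
    unfold P at e1 e2
    rw [ZMod.natCast_eq_natCast_iff'] at e1 e2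
    rw [← hper1, ← e1, hper1, t_s12 hT, ← hper1, ← e2, hper1, t_s12 hT]
    rcases Nat.lt_trichotomy j k with h | h | h
    · exact hlt h hk
    · rw [h, t_alt hT]
    · rw [t_s12 hT]
      exact hlt h hj
  refine eq_zero_of_t hF hT ?_ x y z
  intro a _ b _ c hcn
  have h1 : t T a b c ^ (2 ^ (n - c)) = 0 := by
    rw [t_pow hT, show c + (n - c) = 0 + n by omega, t_per3 hF hT, hall]
  exact (pow_eq_zero_iff (by positivity)).1 h1

variable {A : F → F → F}

theorem bil9 {n i : ℕ} (hn : 303 ≤ n) (hc : Nat.Coprime i n)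
    (hF : Fintype.card F = 2 ^ n) (hML : MLem n i F) {u : F} (hu : u ≠ 0) (hA : Alt2 A)
    (hbad : ∀ a b, Gold8.Bad i u a b → A a b = 0) :
    ∃ c : F, ∀ x y, A x y = tr n (c * (x * y ^ (2 ^ i) + x ^ (2 ^ i) * y)) := by
  have hn0 : NeZero n := ⟨by omega⟩
  have hp1 : ∀ e e', al A (e + n) e' = al A e e' := fun e e' => cf_per hF _ e
  have hp2 : ∀ e e', al A e (e' + n) = al A e e' := fun e e' => by
    rw [al_symm hA, hp1, al_symm hA]
  have hV : Vanish n i u (fun j k => al A (i * j) (i * k)) :=
    vanish_of hc hF (B := A) (g := fun e e' => al A e e') (fun x y => al_exp hF hA x y)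
      hp1 hp2 (al_symm hA) (al_alt hA) hbad
  have hrow : ∀ j, j < n → j ≠ 1 → j ≠ n - 1 → al A (i * j) 0 = 0 := by
    intro j hj h1 h2
    rcases Nat.eq_zero_or_pos j with rfl | h0
    · rw [mul_zero]
      exact al_alt hA 0
    · have h3 := hML _ hu _ hV 0 j h0 hj (by omega) (by omega)
      simp only [mul_zero] at h3
      rw [al_symm hA]
      exact h3
  refine ⟨al A i 0, fun x y => ?_⟩
  -- the functional `A x` is a trace
  have h1 : A x y = tr n (cf (A x) 0 * y) := by
    have hy : ∀ y y', A x (y + y') = A x y + A x y' := by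
      intro y y'
      rw [hA.symm, hA.add, hA.symm y, hA.symm y']
    rw [additive_eq hF hy y]
    unfold tr
    refine sum_congr rfl fun k _ => ?_
    rw [mul_pow]
    congr 1
    unfold cf
    rw [sum_pow_char_pow]
    refine sum_congr rfl fun z _ => ?_
    have h2 : ∀ s : ℕ, A x z ^ (2 ^ s) = A x z := by
      intro s
      induction s with
      | zero => rw [pow_zero, pow_one]
      | succ s ih => rw [pow_succ, pow_mul, ih, hA.sq]
    rw [mul_pow, h2, pow_zero, pow_one]
  have h2 : cf (A x) 0 = al A i 0 * x ^ (2 ^ i)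
      + al A (i * (n - 1)) 0 * x ^ (2 ^ (i * (n - 1))) := by
    have hx : ∀ x x', cf (A (x + x')) 0 = cf (A x) 0 + cf (A x') 0 := by
      intro x x'
      rw [← cf_add]
      congr 1
      funext y
      exact hA.add _ _ _
    have h3 := additive_eq hF (φ := fun x => cf (A x) 0) hx x
    have h3' : cf (A x) 0 = ∑ e ∈ range n, al A e 0 * x ^ (2 ^ e) := h3
    rw [h3', sum_per hc (fun e => al A e 0 * x ^ (2 ^ e)) (fun e => by
      rw [hp1, pow_add, pow_mul]
      congr 1
      exact pow_card' hF _),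
      sum_eq_add 1 (n - 1) (by omega) (fun j hj h4 => by
        rw [hrow j (mem_range.1 hj) h4.1 h4.2, zero_mul]) (fun h => by
        exfalso
        exact h (mem_range.2 (by omega))) (fun h => by
        exfalso
        exact h (mem_range.2 (by omega))), mul_one]
  have h4 : al A (i * (n - 1)) 0 ^ (2 ^ i) = al A i 0 := by
    rw [al_pow hA]
    have e1 : i * (n - 1) + i = 0 + i * n := by
      obtain ⟨m, rfl⟩ : ∃ m, n = m + 1 := ⟨n - 1, by omega⟩
      rw [Nat.add_sub_cancel]
      ring
    have e3 : ∀ (m : ℕ) (a b : ℕ), al A (a + m * n) b = al A a b := by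
      intro m a b
      induction m with
      | zero => rw [zero_mul, add_zero]
      | succ m ih => rw [← ih, add_mul, one_mul, ← add_assoc, hp1]
    rw [e1, e3, zero_add, al_symm hA]
  have h5 : tr n (al A (i * (n - 1)) 0 * x ^ (2 ^ (i * (n - 1))) * y)
      = tr n (al A i 0 * (x * y ^ (2 ^ i))) := by
    rw [← tr_frob hc hF (al A (i * (n - 1)) 0 * x ^ (2 ^ (i * (n - 1))) * y), mul_pow, mul_pow, h4,
      ← pow_mul, ← pow_add]
    have e1 : i * (n - 1) + i = n * i := by
      obtain ⟨m, rfl⟩ : ∃ m, n = m + 1 := ⟨n - 1, by omega⟩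
      rw [Nat.add_sub_cancel]
      ring
    have e2 : ∀ m : ℕ, x ^ ((2 ^ n) ^ m) = x := by
      intro m
      induction m with
      | zero => rw [pow_zero, pow_one]
      | succ m ih => rw [pow_succ, pow_mul, ih, pow_card' hF]
    rw [e1, pow_mul, e2, mul_assoc]
  rw [h1, h2, add_mul, tr_add, h5, ← tr_add]
  congr 1
  ring

omit [DecidableEq F] [CharP F 2] in
theorem exists_bad9 {n i : ℕ} (hn : 303 ≤ n) (hML : MLem n i F) {u : F} (hu : u ≠ 0) :
    ∃ a b : F, Gold8.Bad i u a b := by
  by_contra hcon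
  push Not at hcon
  have hV : Vanish n i u (fun _ _ => (1 : F)) := by
    intro a y _ hy
    exfalso
    apply hcon a (a * y)
    unfold Gold8.Bad
    rw [mul_pow, ← hy]
    ring
  have h1 := hML _ hu _ hV 0 2 (by omega) (by omega) (by omega)
    (by omega)
  exact one_ne_zero h1

/-- the Boolean functions -/
theorem gold_bool9 {n i : ℕ} (hn : 303 ≤ n) (hc : Nat.Coprime i n)
    (hF : Fintype.card F = 2 ^ n) (hML : MLem n i F) {u : F} (hu : u ≠ 0) {f : F → F}
    (hf : MB (Gold8.Bad i u) f) :
    ∃ (c : F) (l : F →+ F), tr n (c * u) = 0 ∧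
      ∀ x, f x = tr n (c * x ^ (2 ^ i + 1)) + l x + f 0 := by
  have two : (2 : F) = 0 := CharTwo.two_eq_zero
  have h3 := third_zero (fun T hT hb => tri_zero9 hn hc hF hML hu hT hb) hf
  have hA : Alt2 (fun x y => D x (D y f) 0) := by
    refine ⟨?_, ?_, ?_, ?_⟩
    · intro x x' y
      show D (x + x') (D y f) 0 = _
      rw [D_add, h3]
      simp
    · intro x y
      show D x (D y f) 0 = D y (D x f) 0
      rw [D_comm]
    · intro x
      show D x (D x f) 0 = 0
      rw [D_self]
      rfl
    · intro x y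
      exact ((MB_D (MB_D hf y) x).1) 0
  obtain ⟨c, hc'⟩ := bil9 hn hc hF hML hu hA (fun a b hab => by
    show D a (D b f) 0 = 0
    rw [hf.2 a b hab]
    rfl)
  have hu0 : tr n (c * u) = 0 := by
    obtain ⟨a, b, hab⟩ := exists_bad9 hn hML hu
    have h4 : D a (D b f) 0 = tr n (c * (a * b ^ (2 ^ i) + a ^ (2 ^ i) * b)) := hc' a b
    rw [hf.2 a b hab] at h4
    unfold Gold8.Bad at hab
    rw [hab] at h4
    exact h4.symm
  have hadd : ∀ x y, f (x + y) = f x + f y + f 0
      + tr n (c * (x * y ^ (2 ^ i) + x ^ (2 ^ i) * y)) := by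
    intro x y
    have h4 : D x (D y f) 0 = tr n (c * (x * y ^ (2 ^ i) + x ^ (2 ^ i) * y)) := hc' x y
    rw [← h4]
    simp only [D, zero_add]
    linear_combination (-(f x) - f y - f 0) * two
  refine ⟨c, ⟨⟨fun x => f x + tr n (c * x ^ (2 ^ i + 1)) + f 0, ?_⟩, ?_⟩, hu0, ?_⟩
  · have h4 : tr n (c * (0 : F) ^ (2 ^ i + 1)) = 0 := by
      rw [zero_pow (Nat.succ_ne_zero _), mul_zero]
      exact (tau F n).map_zero
    rw [h4]
    linear_combination (f 0) * two
  · intro x y
    simp only
    have h4 : c * (x + y) ^ (2 ^ i + 1) = c * x ^ (2 ^ i + 1) + c * y ^ (2 ^ i + 1)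
        + c * (x * y ^ (2 ^ i) + x ^ (2 ^ i) * y) := by
      rw [pow_succ, add_pow_char_pow]
      ring
    rw [h4, tr_add, tr_add, hadd]
    linear_combination (tr n (c * (x * y ^ (2 ^ i) + x ^ (2 ^ i) * y))) * two
  · intro x
    show f x = tr n (c * x ^ (2 ^ i + 1)) + (f x + tr n (c * x ^ (2 ^ i + 1)) + f 0) + f 0
    linear_combination (-(tr n (c * x ^ (2 ^ i + 1))) - f 0) * two

end Quad

/-- (SWITCH) -/
theorem switch_of (hMain : StMain) : StSwitch := by
  intro i n hn hi hi2 hc F _ _ hF u G0 s G hG0 h01 hGs hapn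
  classical
  have : CharP F 2 := charP_of_card_eq_prime_pow (p := 2) (f := n) (by simpa using hF)
  have two : (2 : F) = 0 := CharTwo.two_eq_zero
  obtain ⟨A, B, C, c, d, hAB⟩ := hG0
  by_cases hu : u = 0
  · exact ⟨A, B, C, c, d, fun x => by rw [hGs, hu, zero_mul, add_zero, hAB]⟩
  have hM := toMB (i := i) A B C c d hAB h01 hGs hapn hu
  have hu' : A.symm u ≠ 0 := by
    intro h0
    apply hu
    have := congrArg A h0
    rwa [AddEquiv.apply_symm_apply, map_zero] at this
  have htr : ∀ z : F, tr n z = 0 ∨ tr n z = 1 := fun z => zero_or_one_of_sq (tr_sq hF z)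
  have hAu : ∀ e : F, (e = 0 ∨ e = 1) → A (A.symm u * e) = u * e := by
    rintro e (rfl | rfl)
    · rw [mul_zero, mul_zero, map_zero]
    · rw [mul_one, mul_one, AddEquiv.apply_symm_apply]
  have e1 : ∀ x, B.symm (B x + c + c) = x := by
    intro x
    rw [add_assoc, CharTwo.add_self_eq_zero, add_zero, AddEquiv.symm_apply_apply]
  obtain ⟨c0, l, hcu, hl⟩ := gold_bool9 hn hc hF (fun u hu C hV j k => hMain i n hn hi hi2 hc F hF u hu C hV j k) hu' hM
  obtain ⟨L, hL⟩ := invol hF hcu
  have hs' : ∀ x, s x = tr n (c0 * (B x + c) ^ (2 ^ i + 1)) + l (B x) + l c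
      + s (B.symm (0 + c)) := by
    intro x
    have h1 := hl (B x + c)
    rw [e1, map_add] at h1
    rw [h1]
    ring
  refine ⟨L.trans A, B, C + (AddMonoidHom.mulLeft u).comp (l.comp B.toAddMonoidHom), c,
    d + u * (l c + s (B.symm (0 + c))), ?_⟩
  intro x
  rw [hGs, hAB]
  show A ((B x + c) ^ (2 ^ i + 1)) + C x + d + u * s x
    = A (L ((B x + c) ^ (2 ^ i + 1))) + (C x + u * l (B x))
      + (d + u * (l c + s (B.symm (0 + c))))
  rw [hL, map_add A, hAu _ (htr _)]
  linear_combination u * hs' x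

end Pool.Agent.Lib.MP_eacabd_co.Uni8
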