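import Pool.Agent.Lib.MP_eacabd_co.Wide8.All
import Pool.Agent.Lib.MP_eacabd_co.Uni8.Cls
import Pool.Agent.Lib.MP_eacabd_co.Uni8.Clu
import Pool.Agent.Lib.MP_eacabd_co.Uni8.DblPf
import Pool.Agent.Lib.MP_eacabd_co.Uni8.KillC
import Pool.Agent.Lib.MP_eacabd_co.Uni8.GZ
import Pool.Agent.Lib.MP_eacabd_co.Uni8.Main8
import Pool.Agent.Lib.MP_eacabd_co.Uni8.Switch9
import Pool.Agent.Lib.MP_eacabd_co.Uni8.FinalU

/-!
Switching of the Gold functions, all exponents `i` at once: the switching theorem without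
hypotheses.
-/

set_option autoImplicit false

namespace Pool.Agent.Lib.MP_eacabd_co.Uni8

/-- the switching theorem for all exponents -/
theorem switchU : StSwitch := switch_of (main_of (stGZ_7 (killC dbl_pf cls clu)))

end Pool.Agent.Lib.MP_eacabd_co.Uni8
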